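import Pool.Agent.H25.NP.Back

/-!
A monotone function on a block of consecutive weights, with few negations. Below the block and
above it the circuit is constant, with values 0 and 1 or 1 and 0.
-/

set_option linter.unusedSectionVars false

namespace Pool.Agent.H49.AG

open Finset
open Pool.Agent.H25.NP

section

variable {ι : Type} [Fintype ι] [DecidableEq ι]

/-- The function `f` on the weights from `a` to `b - 1`, constant below and above. -/
def blockFn (f : Finset ι → Prop) (a b : ℕ) (up : Bool) (X : Finset ι) : Prop :=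
  if up then (a ≤ X.card ∧ f X) ∨ b ≤ X.card else X.card < a ∨ (X.card < b ∧ f X)

theorem block_comp {c : Finset (ι ⊕ ι) → Prop} {s : ℕ} (hs : Comp (Inp (ι ⊕ ι)) {c} s 0)
    (hc : ∀ Y Y', Y ⊆ Y' → c Y → c Y')
    {f : Finset ι → Prop} (hf : ∀ X Y, X ⊆ Y → f X → f Y) (hcf : ∀ X, c (lits X) ↔ f X)
    {D p M : ℕ} (hD : 1 ≤ D) (w₀ : ℕ) (hp : M + 1 < 2 ^ p)
    (hMN : M ≤ Fintype.card ι + 1) (up : Bool) :
    Comp (Inp ι) {blockFn f (w₀ * D) ((w₀ + M) * D) up}
      (16 * (D * (s + 1) * (Fintype.card ι + 1) ^ (D + 2)) + 4 * 2 ^ p) p := by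
  classical
  set N := Fintype.card ι with hN
  -- thresholds and windows
  have h1 := comp_thr (ι := ι) D
  rw [← hN] at h1
  set K : Set (Finset ι → Prop) := K₀ ι ∪ {g | ∃ S a, S.card ≤ D ∧ g = thr S a} with hK
  let A : Finset ℕ := (Finset.range M).image fun w => (w₀ + w) * D
  have hA : A.card ≤ N + 1 := by
    refine Finset.card_image_le.trans ?_
    rw [Finset.card_range]
    exact hMN
  have h2 := comp_windows hs A D (K := K) Set.subset_union_left
    (fun S a hS => Or.inr ⟨S, a, hS, rfl⟩) h1 D le_rfl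
  rw [← hN] at h2
  -- the negations
  have h3 := h2.neg_sorted p (fun j => thr ∅ ((w₀ + (j - 1)) * D))
    (fun j x => thr_antitone ∅ (Nat.mul_le_mul_right _ (by omega)) x)
    (fun j _ _ => Or.inl (Or.inr ⟨∅, (w₀ + (j - 1)) * D, by simp, rfl⟩))
  -- the last stage
  have h4 := h3.family (Finset.range M)
    (fun w => fun X => win c D ((w₀ + w) * D) ∅ X ∧ ¬ thr ∅ ((w₀ + w + 1) * D) X) (c := 1) (by
    intro w hw K' s' r' hK' hc'
    have hwm := Finset.mem_range.1 hw
    have g1 : win c D ((w₀ + w) * D) ∅ ∈ K' := hK' (Or.inl (Or.inr ⟨(w₀ + w) * D,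
      Finset.mem_image.2 ⟨w, hw, rfl⟩, ∅, by simp, rfl⟩))
    have g2 : (fun X => ¬ thr (∅ : Finset ι) ((w₀ + w + 1) * D) X) ∈ K' :=
      hK' (Or.inr ⟨w + 2, by omega, by omega, rfl⟩)
    exact hc'.and2 g1 g2 fun X => Iff.rfl)
  let E : Finset ι → Prop := if up then thr ∅ ((w₀ + M) * D) else fun X => ¬ thr ∅ (w₀ * D) X
  have hE : E ∈ (K ∪ {g | ∃ a ∈ A, ∃ S : Finset ι, S.card ≤ D - D ∧ g = win c D a S} ∪
      {g | ∃ j, 1 ≤ j ∧ j < 2 ^ p ∧ g = fun x => ¬ thr (∅ : Finset ι) ((w₀ + (j - 1)) * D) x}) := by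
    show (if up then thr ∅ ((w₀ + M) * D) else fun X => ¬ thr ∅ (w₀ * D) X) ∈ _
    cases up
    · rw [if_neg (by simp)]
      exact Or.inr ⟨1, le_rfl, by omega, rfl⟩
    · rw [if_pos rfl]
      exact Or.inl (Or.inl (Or.inr ⟨∅, _, by simp, rfl⟩))
  have h5 := h4.or (insert E ((fun w => fun X => win c D ((w₀ + w) * D) ∅ X ∧
    ¬ thr ∅ ((w₀ + w + 1) * D) X) '' (Finset.range M : Set ℕ))) (by
      rintro g (rfl | hg)
      · exact Or.inl hE
      · exact Or.inr hg) (g := blockFn f (w₀ * D) ((w₀ + M) * D) up) (by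
    intro X
    have hsp := fun a => win_spec hc hf hcf a D ∅ X
    simp only [Finset.sdiff_empty] at hsp
    have hEX : E X ↔ if up then (w₀ + M) * D ≤ X.card else X.card < w₀ * D := by
      show (if up then thr ∅ ((w₀ + M) * D) else fun X => ¬ thr ∅ (w₀ * D) X) X ↔ _
      cases up
      · rw [if_neg (by simp), if_neg (by simp)]
        show ¬ (w₀ * D ≤ (X \ ∅).card) ↔ _
        rw [Finset.sdiff_empty, not_le]
      · rw [if_pos rfl, if_pos rfl]
        show (w₀ + M) * D ≤ (X \ ∅).card ↔ _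
        rw [Finset.sdiff_empty]
    have hmem : (∃ g ∈ ((fun w => fun X => win c D ((w₀ + w) * D) ∅ X ∧
        ¬ thr ∅ ((w₀ + w + 1) * D) X) '' (Finset.range M : Set ℕ)), g X) ↔
        w₀ * D ≤ X.card ∧ X.card < (w₀ + M) * D ∧ f X := by
      constructor
      · rintro ⟨_, ⟨w, hw, rfl⟩, h6, h7⟩
        have hwM : w < M := Finset.mem_range.1 (Finset.mem_coe.1 hw)
        obtain ⟨g1, _, g3⟩ := hsp ((w₀ + w) * D)
        have e1 : (w₀ + w) * D ≤ X.card := by
          by_contra h
          exact g1 (by omega) h6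
        have h10 : ¬ (w₀ + w + 1) * D ≤ (X \ ∅).card := h7
        rw [Finset.sdiff_empty] at h10
        have e2 : (w₀ + w + 1) * D = (w₀ + w) * D + D := by ring
        have e3 : w₀ * D ≤ (w₀ + w) * D := Nat.mul_le_mul_right _ (by omega)
        have e4 : (w₀ + w + 1) * D ≤ (w₀ + M) * D := Nat.mul_le_mul_right _ (by omega)
        exact ⟨by omega, by omega, (g3 e1 (by omega)).1 h6⟩
      · rintro ⟨h6, h7, hfX⟩
        have e1 : X.card / D * D ≤ X.card := Nat.div_mul_le_self _ _
        have e2 : X.card < X.card / D * D + D := Nat.lt_div_mul_add (by omega)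
        have e3 : w₀ ≤ X.card / D := (Nat.le_div_iff_mul_le (by omega)).2 h6
        have e4 : X.card / D < w₀ + M := (Nat.div_lt_iff_lt_mul (by omega)).2 h7
        have e5 : w₀ + (X.card / D - w₀) = X.card / D := by omega
        refine ⟨_, ⟨X.card / D - w₀, ?_, rfl⟩, ?_, ?_⟩
        · rw [Finset.mem_coe, Finset.mem_range]
          omega
        · show win c D ((w₀ + (X.card / D - w₀)) * D) ∅ X
          rw [e5]
          exact ((hsp (X.card / D * D)).2.2 e1 e2).2 hfX
        · show ¬ (w₀ + (X.card / D - w₀) + 1) * D ≤ (X \ ∅).card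
          rw [e5, Finset.sdiff_empty, add_mul, one_mul]
          omega
    show blockFn f (w₀ * D) ((w₀ + M) * D) up X ↔ _
    rw [show (∃ g ∈ (insert E ((fun w => fun X => win c D ((w₀ + w) * D) ∅ X ∧
      ¬ thr ∅ ((w₀ + w + 1) * D) X) '' (Finset.range M : Set ℕ))), g X) ↔
        (E X ∨ ∃ g ∈ ((fun w => fun X => win c D ((w₀ + w) * D) ∅ X ∧
        ¬ thr ∅ ((w₀ + w + 1) * D) X) '' (Finset.range M : Set ℕ)), g X) from
      Set.exists_mem_insert, hmem, hEX]
    have e3 : w₀ * D ≤ (w₀ + M) * D := Nat.mul_le_mul_right _ (by omega)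
    unfold blockFn
    cases up
    · rw [if_neg (by simp), if_neg (by simp)]
      constructor
      · rintro (h | ⟨h, h'⟩)
        · exact Or.inl h
        · by_cases h6 : X.card < w₀ * D
          · exact Or.inl h6
          · exact Or.inr ⟨by omega, h, h'⟩
      · rintro (h | ⟨_, h, h'⟩)
        · exact Or.inl h
        · exact Or.inr ⟨h, h'⟩
    · rw [if_pos rfl, if_pos rfl]
      constructor
      · rintro (⟨h, h'⟩ | h)
        · by_cases h6 : (w₀ + M) * D ≤ X.card
          · exact Or.inl h6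
          · exact Or.inr ⟨h, by omega, h'⟩
        · exact Or.inl h
      · rintro (h | ⟨h, _, h'⟩)
        · exact Or.inr h
        · exact Or.inl ⟨h, h'⟩)
  rw [Nat.zero_add] at h5
  refine h5.mono ?_ ?_
  · rintro g rfl
    exact Or.inl rfl
  · rw [Finset.card_range]
    set P := (N + 1) ^ (D + 1) with hP
    have hP2 : (N + 1) ^ (D + 2) = P * (N + 1) := by rw [hP, pow_succ]
    have hP1 : (N + 1) ^ D * (N + 1) = P := by rw [hP, pow_succ]
    have hPN : N + 1 ≤ P := by
      calc N + 1 = (N + 1) ^ 1 := (pow_one _).symm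
        _ ≤ (N + 1) ^ (D + 1) := Nat.pow_le_pow_right (Nat.succ_pos _) (by omega)
    have e1 : A.card * (N + 1) ^ D * (s + 2) ≤ P * (s + 2) := by
      refine Nat.mul_le_mul_right _ ?_
      calc A.card * (N + 1) ^ D ≤ (N + 1) * (N + 1) ^ D := Nat.mul_le_mul_right _ hA
        _ = P := by rw [mul_comm, hP1]
    have e2 : D * (A.card * (N + 1) ^ D * (s + 2)) ≤ D * (P * (s + 2)) := Nat.mul_le_mul_left _ e1
    have e3 : D * (P * (s + 2)) ≤ 2 * (D * (s + 1) * (P * (N + 1))) := by
      calc D * (P * (s + 2)) ≤ D * (P * (2 * (s + 1))) :=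
            Nat.mul_le_mul_left _ (Nat.mul_le_mul_left _ (by omega))
        _ = 2 * (D * (s + 1) * (P * 1)) := by ring
        _ ≤ 2 * (D * (s + 1) * (P * (N + 1))) := Nat.mul_le_mul_left _ (Nat.mul_le_mul_left _
            (Nat.mul_le_mul_left _ (by omega)))
    have e4 : P * (N + 1) ≤ D * (s + 1) * (P * (N + 1)) :=
      Nat.le_mul_of_pos_left _ (Nat.mul_pos hD (Nat.succ_pos _))
    have e5 : N + 1 ≤ P * (N + 1) := Nat.le_mul_of_pos_left _ (by omega)
    rw [hP2]
    omega

end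

end Pool.Agent.H49.AG
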