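import Pool.Agent.H49.AG.Clique

/-!
The chain argument without any assumption on the detectors, and the changes of the gates.
-/

namespace Pool.Agent.H49.AG

open Finset
open Pool.Agent.H25.NM Pool.Agent.H25.NP

section

variable {V Ω P : Type} [Fintype V] [Fintype Ω] [Fintype P] {n J : ℕ}
variable {φ : Fin J → V ↪ Fin n} {R : Ω → SimpleGraph V} {A : P → Finset V}

/-- **Chain lemma.** A detector seldom reports a planted clique or the block. -/
theorem chain_sum [Nonempty Ω] {s : ℕ} {ε : ℝ}
    (BL : ∀ F : SimpleGraph V → Prop, MonoSize s F →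
      (nc (fun x : P × Ω => F (cq (A x.1)) ∧ ¬ F (R x.2)) : ℝ) ≤
        Fintype.card P * nc (fun ω => F (R ω)) + ε * (Fintype.card P * Fintype.card Ω))
    {F : SimpleGraph (Fin n) → SimpleGraph (Fin n) → Prop} (hF : ∀ G, MonoSize s (F G))
    {a : ℕ} (halt : ∀ ω : Fin J → Ω,
      nc (fun j : Fin J => F (pre φ R ω j.1) (pre φ R ω (j.1 + 1))) ≤ a) :
    (nc (fun z : Fin J × P × (Fin J → Ω) =>
        F (pre φ R z.2.2 z.1.1) (pre φ R z.2.2 z.1.1 ⊔ (cq (A z.2.1)).map (φ z.1)) ∨
        F (pre φ R z.2.2 z.1.1) (pre φ R z.2.2 (z.1.1 + 1))) : ℝ) ≤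
      (2 * a + J * ε) * (Fintype.card P * Fintype.card (Fin J → Ω)) := by
  have hP : (0 : ℝ) ≤ Fintype.card P := by positivity
  -- per block
  have h1 : ∀ j : Fin J, (nc (fun x : P × (Fin J → Ω) =>
        F (pre φ R x.2 j.1) (pre φ R x.2 j.1 ⊔ (cq (A x.1)).map (φ j)) ∨
        F (pre φ R x.2 j.1) (pre φ R x.2 (j.1 + 1))) : ℝ) ≤
      2 * (Fintype.card P * nc (fun ω : Fin J → Ω =>
        F (pre φ R ω j.1) (pre φ R ω (j.1 + 1)))) +
        ε * (Fintype.card P * Fintype.card (Fin J → Ω)) := by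
    intro j
    have e2 : nc (fun x : P × (Fin J → Ω) =>
        F (pre φ R x.2 j.1) (pre φ R x.2 j.1 ⊔ (cq (A x.1)).map (φ j)) ∨
        F (pre φ R x.2 j.1) (pre φ R x.2 (j.1 + 1))) ≤
        nc (fun x : P × (Fin J → Ω) =>
          F (pre φ R x.2 j.1) (pre φ R x.2 j.1 ⊔ (cq (A x.1)).map (φ j)) ∧
            ¬ F (pre φ R x.2 j.1) (pre φ R x.2 (j.1 + 1))) +
        nc (fun x : P × (Fin J → Ω) =>
          True ∧ F (pre φ R x.2 j.1) (pre φ R x.2 (j.1 + 1))) := by
      refine le_trans (nc_mono fun x hx => ?_) (nc_or_le _ _)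
      by_cases h3 : F (pre φ R x.2 j.1) (pre φ R x.2 (j.1 + 1))
      · exact Or.inr ⟨trivial, h3⟩
      · rcases hx with hx | hx
        · exact Or.inl ⟨hx, h3⟩
        · exact absurd hx h3
    have e3 := error_le' (φ := φ) BL hF j
    have e4 : nc (fun x : P × (Fin J → Ω) =>
          True ∧ F (pre φ R x.2 j.1) (pre φ R x.2 (j.1 + 1))) =
          Fintype.card P * nc (fun ω : Fin J → Ω =>
            F (pre φ R ω j.1) (pre φ R ω (j.1 + 1))) := by
      rw [nc_prod_and (fun _ : P => True) fun ω : Fin J → Ω =>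
        F (pre φ R ω j.1) (pre φ R ω (j.1 + 1)), nc_true fun _ => trivial]
    rw [e4] at e2
    have e5 : (nc (fun x : P × (Fin J → Ω) =>
        F (pre φ R x.2 j.1) (pre φ R x.2 j.1 ⊔ (cq (A x.1)).map (φ j)) ∨
        F (pre φ R x.2 j.1) (pre φ R x.2 (j.1 + 1))) : ℝ) ≤
        nc (fun x : P × (Fin J → Ω) =>
          F (pre φ R x.2 j.1) (pre φ R x.2 j.1 ⊔ (cq (A x.1)).map (φ j)) ∧
            ¬ F (pre φ R x.2 j.1) (pre φ R x.2 (j.1 + 1))) +
        Fintype.card P * nc (fun ω : Fin J → Ω =>
            F (pre φ R ω j.1) (pre φ R ω (j.1 + 1))) := by exact_mod_cast e2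
    linarith
  -- sum over the blocks
  have h0 := nc_prod fun (j : Fin J) (x : P × (Fin J → Ω)) =>
        F (pre φ R x.2 j.1) (pre φ R x.2 j.1 ⊔ (cq (A x.1)).map (φ j)) ∨
        F (pre φ R x.2 j.1) (pre φ R x.2 (j.1 + 1))
  have h2 := Finset.sum_le_sum fun (j : Fin J) (_ : j ∈ univ) => h1 j
  rw [← Nat.cast_sum, ← h0] at h2
  have h3 : ∑ j : Fin J, nc (fun ω : Fin J → Ω => F (pre φ R ω j.1) (pre φ R ω (j.1 + 1))) ≤
      a * Fintype.card (Fin J → Ω) := by
    have g1 := nc_prod fun (j : Fin J) (ω : Fin J → Ω) => F (pre φ R ω j.1) (pre φ R ω (j.1 + 1))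
    rw [← g1]
    have g2 := nc_equiv (Equiv.prodComm (Fin J → Ω) (Fin J)) fun x : Fin J × (Fin J → Ω) =>
      F (pre φ R x.2 x.1.1) (pre φ R x.2 (x.1.1 + 1))
    rw [← g2]
    have g3 := nc_prod fun (ω : Fin J → Ω) (j : Fin J) => F (pre φ R ω j.1) (pre φ R ω (j.1 + 1))
    refine (le_of_eq g3).trans ?_
    calc ∑ ω : Fin J → Ω, nc (fun j : Fin J => F (pre φ R ω j.1) (pre φ R ω (j.1 + 1)))
        ≤ ∑ ω : Fin J → Ω, a := Finset.sum_le_sum fun ω _ => halt ω
      _ = a * Fintype.card (Fin J → Ω) := by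
          rw [Finset.sum_const, Finset.card_univ, smul_eq_mul, mul_comm]
  have h3' : (∑ j : Fin J, (nc (fun ω : Fin J → Ω =>
      F (pre φ R ω j.1) (pre φ R ω (j.1 + 1))) : ℝ)) ≤ a * Fintype.card (Fin J → Ω) := by
    exact_mod_cast h3
  rw [Finset.sum_add_distrib, Finset.sum_const, nsmul_eq_mul, Finset.card_univ,
    Fintype.card_fin, ← Finset.mul_sum, ← Finset.mul_sum] at h2
  have h6 := mul_le_mul_of_nonneg_left h3' hP
  refine h2.trans ?_
  nlinarith

end

/-- The output changes at most once between two changes of the watched gates. -/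
theorem nc_insert_le {n s : ℕ} (C : Circuit n s) (out : Fin s) {x : ℕ → SimpleGraph (Fin n)}
    (hx : Monotone x) {T A : ℕ}
    (hA : nc (fun j : Fin T => ∃ i ∈ C.watched, ¬ (C.fn i (x j) ↔ C.fn i (x (j + 1)))) ≤ A) :
    nc (fun j : Fin T => ∃ i ∈ insert out C.watched,
      ¬ (C.fn i (x j) ↔ C.fn i (x (j + 1)))) ≤ 2 * A + 1 := by
  classical
  let W : Finset (Fin T) := univ.filter fun j => ∃ i ∈ C.watched,
    ¬ (C.fn i (x j) ↔ C.fn i (x (j + 1)))
  let D : Finset (Fin T) := univ.filter fun j => j ∉ W ∧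
    ¬ (C.fn out (x j) ↔ C.fn out (x (j + 1)))
  have hW : W.card ≤ A := by
    rw [nc_eq] at hA
    exact hA
  have h1 : nc (fun j : Fin T => ∃ i ∈ insert out C.watched,
      ¬ (C.fn i (x j) ↔ C.fn i (x (j + 1)))) ≤ W.card + D.card := by
    rw [nc_eq]
    refine le_trans (Finset.card_le_card fun j hj => ?_) (Finset.card_union_le W D)
    obtain ⟨i, hi, hne⟩ := (Finset.mem_filter.1 hj).2
    rw [Finset.mem_union]
    by_cases hjW : j ∈ W
    · exact Or.inl hjW
    · right
      refine Finset.mem_filter.2 ⟨Finset.mem_univ _, hjW, ?_⟩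
      rcases Finset.mem_insert.1 hi with rfl | hi
      · exact hne
      · exact absurd (Finset.mem_filter.2 ⟨Finset.mem_univ _, i, hi, hne⟩) hjW
  -- monotone as long as the watched gates keep their values
  have hmono : ∀ a b : ℕ, a ≤ b → b ≤ T → (∀ j : Fin T, a ≤ j.1 → j.1 < b → j ∉ W) →
      C.fn out (x a) → C.fn out (x b) := by
    intro a b hab hbT hno
    have hw : ∀ i ∈ C.watched, (C.fn i (x a) ↔ C.fn i (x b)) := by
      intro i hi
      induction b, hab using Nat.le_induction with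
      | base => exact Iff.rfl
      | succ b hab ih =>
        have ih' := ih (by omega) fun j h1 h2 => hno j h1 (by omega)
        refine ih'.trans ?_
        by_contra hne
        exact hno ⟨b, by omega⟩ hab (Nat.lt_succ_self b)
          (Finset.mem_filter.2 ⟨Finset.mem_univ _, i, hi, hne⟩)
    exact C.mono' (fun _ => True) (fun _ _ _ _ => trivial) (hx hab)
      (fun l hl _ => C.special_eq hl fun j hj _ => hw j hj) out trivial
  have h2 : D.card ≤ W.card + 1 := by
    rw [← Finset.card_range (W.card + 1)]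
    refine Finset.card_le_card_of_injOn (fun j => (W.filter fun w => w < j).card) ?_ ?_
    · intro j _
      rw [Finset.mem_coe, Finset.mem_range]
      exact Nat.lt_succ_of_le (Finset.card_filter_le _ _)
    · have key : ∀ a ∈ D, ∀ b ∈ D, a < b →
          (W.filter fun w => w < a).card = (W.filter fun w => w < b).card → False := by
        intro a ha b hb hab he
        obtain ⟨ha1, ha2⟩ := (Finset.mem_filter.1 ha).2
        obtain ⟨hb1, hb2⟩ := (Finset.mem_filter.1 hb).2
        have hsub : (W.filter fun w => w < a) ⊆ W.filter fun w => w < b := by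
          intro w hw
          obtain ⟨h3, h4⟩ := Finset.mem_filter.1 hw
          exact Finset.mem_filter.2 ⟨h3, h4.trans hab⟩
        have heq := Finset.eq_of_subset_of_card_le hsub he.ge
        have hno : ∀ j : Fin T, a ≤ j → j < b → j ∉ W := by
          intro j h3 h4 h5
          have h6 : j ∈ W.filter fun w => w < b := Finset.mem_filter.2 ⟨h5, h4⟩
          rw [← heq] at h6
          exact absurd (Finset.mem_filter.1 h6).2 (not_lt.2 h3)
        have hab' : a.1 < b.1 := hab
        have m1 : C.fn out (x a) → C.fn out (x (a + 1)) :=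
          hmono a (a + 1) (by omega) (by omega) fun j h3 h4 =>
            hno j h3 (show j.1 < b.1 by omega)
        have m2 : C.fn out (x (a + 1)) → C.fn out (x b) :=
          hmono (a + 1) b (by omega) (by omega) fun j h3 h4 =>
            hno j (show a.1 ≤ j.1 by omega) h4
        have m3 : C.fn out (x b) → C.fn out (x (b + 1)) :=
          hmono b (b + 1) (by omega) (by omega) fun j h3 h4 => by
            have : j = b := Fin.ext (by omega)
            rw [this]
            exact hb1
        tauto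
      intro a ha b hb he
      rcases lt_trichotomy a b with h | h | h
      · exact (key a ha b hb h he).elim
      · exact h
      · exact (key b hb a ha h he.symm).elim
  omega

end Pool.Agent.H49.AG
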