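import Pool.Agent.H49.AG.Graph
import Pool.Agent.H25.NP.Quant

/-!
The union of the blocks seldom contains a clique.
-/

namespace Pool.Agent.H49.AG

open Finset
open Pool.Agent.H25.NM Pool.Agent.H25.NP

section

variable {V : Type} [Fintype V] [DecidableEq V] {n J Q : ℕ} [NeZero Q]

theorem nc_clique_le (φ : Fin J → V ↪ Fin n) (μ : ℕ)
    (hφ : ∀ e : Sym2 (Fin n), ¬ e.IsDiag →
      nc (fun p : Fin J × Sym2 V => Sym2.map (φ p.1) p.2 = e) ≤ μ) (U : Finset (Fin n)) :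
    nc (fun ω : Fin J → (Sym2 V → Fin Q) => (pre φ (gr (nz Q)) ω J).IsClique U) *
      (Q ^ μ) ^ (U.card.choose 2) ≤
      (Q ^ μ - 1) ^ (U.card.choose 2) * Fintype.card (Fin J → (Sym2 V → Fin Q)) := by
  classical
  let E : Finset (Sym2 (Fin n)) := U.offDiag.image Sym2.mk.uncurry
  have hE : E.card = U.card.choose 2 := Sym2.card_image_offDiag U
  have hmem : ∀ x y, s(x, y) ∈ E → x ∈ U ∧ y ∈ U ∧ x ≠ y := by
    intro x y h
    obtain ⟨⟨a, b⟩, hab, h⟩ := Finset.mem_image.1 h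
    rw [Finset.mem_offDiag] at hab
    rcases Sym2.eq_iff.1 h with ⟨rfl, rfl⟩ | ⟨rfl, rfl⟩
    · exact hab
    · exact ⟨hab.2.1, hab.1, hab.2.2.symm⟩
  have hdiag : ∀ e ∈ E, ¬ e.IsDiag := by
    intro e he hd
    induction e using Sym2.ind with
    | _ x y =>
      exact (hmem x y he).2.2 (Sym2.mk_isDiag_iff.1 hd)
  let P : Sym2 (Fin n) → Finset (Fin J × Sym2 V) := fun e =>
    univ.filter fun p => Sym2.map (φ p.1) p.2 = e
  have hP : ∀ e ∈ E, (P e).card ≤ μ := by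
    intro e he
    have := hφ e (hdiag e he)
    rw [nc_eq] at this
    exact this
  have hd : ∀ e ∈ E, ∀ f ∈ E, e ≠ f → Disjoint (P e) (P f) := by
    intro e _ f _ hef
    rw [Finset.disjoint_left]
    intro p hp hp'
    exact hef ((Finset.mem_filter.1 hp).2.symm.trans (Finset.mem_filter.1 hp').2)
  have h1 := nc_edges (I := Fin J × Sym2 V) Q μ E P hP hd
  have h4 : Fintype.card (Fin J × Sym2 V → Fin Q) = Fintype.card (Fin J → Sym2 V → Fin Q) :=
    Fintype.card_congr (Equiv.curry (Fin J) (Sym2 V) (Fin Q))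
  rw [hE, h4] at h1
  refine le_trans (Nat.mul_le_mul_right _ ?_) h1
  have h2 := nc_equiv (Equiv.curry (Fin J) (Sym2 V) (Fin Q)).symm
      fun x : Fin J × Sym2 V → Fin Q => ∀ e ∈ E, ∃ p ∈ P e, x p ∈ nz Q
  rw [← h2]
  refine nc_mono fun ω hω e he => ?_
  show ∃ p ∈ P e, ω p.1 p.2 ∈ nz Q
  induction e using Sym2.ind with
  | _ x y =>
    obtain ⟨hx, hy, hxy⟩ := hmem x y he
    obtain ⟨i, _, hadj⟩ := hω hx hy hxy
    rw [SimpleGraph.map_adj] at hadj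
    obtain ⟨u, v, huv, hu, hv⟩ := hadj
    refine ⟨(i, s(u, v)), Finset.mem_filter.2 ⟨Finset.mem_univ _, ?_⟩, huv.2⟩
    rw [Sym2.map_mk, hu, hv]

theorem nc_not_cliqueFree_le (φ : Fin J → V ↪ Fin n) (μ : ℕ)
    (hφ : ∀ e : Sym2 (Fin n), ¬ e.IsDiag →
      nc (fun p : Fin J × Sym2 V => Sym2.map (φ p.1) p.2 = e) ≤ μ) (k : ℕ) :
    nc (fun ω : Fin J → (Sym2 V → Fin Q) => ¬ (pre φ (gr (nz Q)) ω J).CliqueFree k) *
      (Q ^ μ) ^ (k.choose 2) ≤
      n.choose k * ((Q ^ μ - 1) ^ (k.choose 2) * Fintype.card (Fin J → (Sym2 V → Fin Q))) := by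
  classical
  have h1 : nc (fun ω : Fin J → (Sym2 V → Fin Q) =>
      ¬ (pre φ (gr (nz Q)) ω J).CliqueFree k) ≤
      ∑ U ∈ powersetCard k (univ : Finset (Fin n)),
        nc (fun ω : Fin J → (Sym2 V → Fin Q) => (pre φ (gr (nz Q)) ω J).IsClique U) := by
    refine le_trans (nc_mono fun ω hω => ?_) (nc_bex_le _ _)
    unfold SimpleGraph.CliqueFree at hω
    push Not at hω
    obtain ⟨U, hU⟩ := hω
    exact ⟨U, Finset.mem_powersetCard.2 ⟨Finset.subset_univ _, hU.card_eq⟩, hU.isClique⟩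
  calc nc (fun ω : Fin J → (Sym2 V → Fin Q) => ¬ (pre φ (gr (nz Q)) ω J).CliqueFree k) *
      (Q ^ μ) ^ (k.choose 2)
      ≤ (∑ U ∈ powersetCard k (univ : Finset (Fin n)),
        nc (fun ω : Fin J → (Sym2 V → Fin Q) => (pre φ (gr (nz Q)) ω J).IsClique U)) *
        (Q ^ μ) ^ (k.choose 2) := Nat.mul_le_mul_right _ h1
    _ = ∑ U ∈ powersetCard k (univ : Finset (Fin n)),
        nc (fun ω : Fin J → (Sym2 V → Fin Q) => (pre φ (gr (nz Q)) ω J).IsClique U) *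
        (Q ^ μ) ^ (k.choose 2) := Finset.sum_mul _ _ _
    _ ≤ ∑ U ∈ powersetCard k (univ : Finset (Fin n)),
        ((Q ^ μ - 1) ^ (k.choose 2) * Fintype.card (Fin J → (Sym2 V → Fin Q))) := by
        refine Finset.sum_le_sum fun U hU => ?_
        have hk := (Finset.mem_powersetCard.1 hU).2
        have := nc_clique_le (Q := Q) φ μ hφ U
        rwa [hk] at this
    _ = _ := by
        rw [Finset.sum_const, Finset.card_powersetCard, Finset.card_univ, Fintype.card_fin,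
          smul_eq_mul]

end

/-- The numbers. -/
theorem count {n s L Q : ℕ} (hQ : 1 ≤ Q) (hn : n ≤ 2 ^ L) (hs : 2 * Q * (L + 1) < s) :
    2 ^ s * (n ^ s * (Q - 1) ^ (s.choose 2)) ≤ Q ^ (s.choose 2) := by
  have h1 : Q * (s * (L + 1)) ≤ s.choose 2 := by
    have h2 := two_choose_two s
    have h3 : s * (2 * Q * (L + 1)) ≤ s * (s - 1) := Nat.mul_le_mul_left _ (by omega)
    have h4 : 2 * (Q * (s * (L + 1))) = s * (2 * Q * (L + 1)) := by ring
    omega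
  have h2 : 2 ^ (s * (L + 1)) * (Q - 1) ^ (Q * (s * (L + 1))) ≤ Q ^ (Q * (s * (L + 1))) := by
    have h3 := Nat.pow_le_pow_left (two_mul_pred_pow Q hQ) (s * (L + 1))
    rwa [mul_pow, ← pow_mul, ← pow_mul] at h3
  have h3 : 2 ^ s * n ^ s ≤ 2 ^ (s * (L + 1)) := by
    calc 2 ^ s * n ^ s ≤ 2 ^ s * (2 ^ L) ^ s := Nat.mul_le_mul_left _ (Nat.pow_le_pow_left hn _)
      _ = 2 ^ (s * (L + 1)) := by
        rw [← pow_mul, ← pow_add]
        congr 1
        ring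
  obtain ⟨c, hc⟩ := Nat.exists_eq_add_of_le h1
  rw [hc, pow_add, pow_add]
  calc 2 ^ s * (n ^ s * ((Q - 1) ^ (Q * (s * (L + 1))) * (Q - 1) ^ c))
      = (2 ^ s * n ^ s) * (Q - 1) ^ (Q * (s * (L + 1))) * (Q - 1) ^ c := by ring
    _ ≤ 2 ^ (s * (L + 1)) * (Q - 1) ^ (Q * (s * (L + 1))) * Q ^ c := by
        refine Nat.mul_le_mul (Nat.mul_le_mul_right _ h3) (Nat.pow_le_pow_left (by omega) _)
    _ ≤ Q ^ (Q * (s * (L + 1))) * Q ^ c := Nat.mul_le_mul_right _ h2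

end Pool.Agent.H49.AG
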