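import Pool.Agent.H49.AG.Chain

/-!
Universal vertices.
-/

namespace Pool.Agent.H49.AG

open Finset
open Pool.Agent.H25.NM Pool.Agent.H25.NP

theorem cone_zero {n : ℕ} (G : SimpleGraph (Fin n)) : cone 0 G = G := by
  ext x y
  constructor
  · rintro ⟨_, h | h | h⟩
    · exact h
    · have := x.2
      omega
    · have := y.2
      omega
  · intro h
    exact ⟨h.ne, Or.inl h⟩

theorem cone_mono {n : ℕ} (d : ℕ) {G H : SimpleGraph (Fin n)} (h : G ≤ H) :
    cone d G ≤ cone d H := fun _ _ h' => ⟨h'.1, h'.2.imp (fun h'' => h h'') id⟩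

theorem cone_restrict {n : ℕ} (d : ℕ) (G : SimpleGraph (Fin n)) :
    cone d G = cone d ⊥ ⊔ G.map (Function.Embedding.refl (Fin n)) := by
  ext x y
  rw [SimpleGraph.sup_adj, SimpleGraph.map_adj]
  constructor
  · rintro ⟨h, h' | h'⟩
    · exact Or.inr ⟨x, y, h', rfl, rfl⟩
    · exact Or.inl ⟨h, Or.inr h'⟩
  · rintro (⟨h, h' | h'⟩ | ⟨u, v, h, rfl, rfl⟩)
    · exact absurd h' (by simp)
    · exact ⟨h, Or.inr h'⟩
    · exact ⟨h.ne, Or.inl h⟩

theorem MonoSize.cone {n s : ℕ} {F : SimpleGraph (Fin n) → Prop} (h : MonoSize s F) (d : ℕ) :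
    MonoSize s fun G => F (cone d G) := by
  have h1 := h.restrict (Function.Embedding.refl (Fin n)) (AG.cone d ⊥)
  have h2 : (fun G => F (AG.cone d G)) =
      fun G => F (AG.cone d ⊥ ⊔ G.map (Function.Embedding.refl (Fin n))) := by
    funext G
    rw [cone_restrict]
  rw [h2]
  exact h1

/-- A clique away from the universal vertices grows by all of them. -/
theorem cone_not_cliqueFree {n d k : ℕ} {G : SimpleGraph (Fin n)} (hd : d ≤ n)
    {S : Finset (Fin n)} (hS : G.IsNClique k S) (hlt : ∀ x ∈ S, (x : ℕ) + d < n) :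
    ¬ (cone d G).CliqueFree (k + d) := by
  classical
  intro hfree
  let T : Finset (Fin n) := univ.filter fun x : Fin n => n ≤ x + d
  have hT : T.card = d := by
    have h1 : T = (Finset.range d).attach.image fun i =>
        (⟨n - 1 - i.1, by have := Finset.mem_range.1 i.2; omega⟩ : Fin n) := by
      ext x
      constructor
      · intro hx
        have h2 := (Finset.mem_filter.1 hx).2
        have h3 := x.2
        refine Finset.mem_image.2 ⟨⟨n - 1 - x.1, Finset.mem_range.2 (by omega)⟩,
          Finset.mem_attach _ _, Fin.ext ?_⟩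
        show n - 1 - (n - 1 - x.1) = x.1
        omega
      · intro hx
        obtain ⟨i, _, rfl⟩ := Finset.mem_image.1 hx
        have h2 := Finset.mem_range.1 i.2
        refine Finset.mem_filter.2 ⟨Finset.mem_univ _, ?_⟩
        show n ≤ n - 1 - i.1 + d
        omega
    rw [h1, Finset.card_image_of_injective, Finset.card_attach, Finset.card_range]
    intro i j hij
    have h2 := Finset.mem_range.1 i.2
    have h3 := Finset.mem_range.1 j.2
    have h4 : n - 1 - i.1 = n - 1 - j.1 := Fin.ext_iff.1 hij
    exact Subtype.ext (by omega)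
  have hdisj : Disjoint S T := by
    rw [Finset.disjoint_left]
    intro x hx hx'
    have h1 := hlt x hx
    have h2 := (Finset.mem_filter.1 hx').2
    omega
  refine hfree (S ∪ T) ⟨?_, ?_⟩
  · intro x hx y hy hxy
    rw [Finset.mem_coe, Finset.mem_union] at hx hy
    refine ⟨hxy, ?_⟩
    rcases hx with hx | hx
    · rcases hy with hy | hy
      · exact Or.inl (hS.isClique hx hy hxy)
      · exact Or.inr (Or.inr (Finset.mem_filter.1 hy).2)
    · exact Or.inr (Or.inl (Finset.mem_filter.1 hx).2)
  · rw [Finset.card_union_of_disjoint hdisj, hS.card_eq, hT]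

/-- Removing the universal vertices. -/
theorem cliqueFree_cone {n d k : ℕ} {G : SimpleGraph (Fin n)} (hG : G.CliqueFree k) :
    (cone d G).CliqueFree (k + d) := by
  classical
  intro S hS
  let T : Finset (Fin n) := univ.filter fun x : Fin n => n ≤ x + d
  have hT : T.card ≤ d := by
    rw [← Finset.card_range d]
    refine Finset.card_le_card_of_injOn (fun x => n - 1 - x.1) ?_ ?_
    · intro x hx
      have h2 := (Finset.mem_filter.1 (Finset.mem_coe.1 hx)).2
      have h3 := x.2
      rw [Finset.mem_coe, Finset.mem_range]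
      show n - 1 - x.1 < d
      omega
    · intro x _ y _ hxy
      have h2 := x.2
      have h3 := y.2
      have h4 : n - 1 - x.1 = n - 1 - y.1 := hxy
      exact Fin.ext (by omega)
  have hc : G.IsClique ((S \ T : Finset (Fin n)) : Set (Fin n)) := by
    intro x hx y hy hxy
    rw [Finset.mem_coe, Finset.mem_sdiff] at hx hy
    rcases (hS.isClique hx.1 hy.1 hxy).2 with h | h | h
    · exact h
    · exact (hx.2 (Finset.mem_filter.2 ⟨Finset.mem_univ _, h⟩)).elim
    · exact (hy.2 (Finset.mem_filter.2 ⟨Finset.mem_univ _, h⟩)).elim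
  have hk : k ≤ (S \ T).card := by
    have h1 := Finset.le_card_sdiff T S
    rw [hS.card_eq] at h1
    omega
  exact (⟨hc, rfl⟩ : G.IsNClique (S \ T).card (S \ T)).not_cliqueFree (hG.mono hk)

end Pool.Agent.H49.AG
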