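import Pool.Agent.H49.AG.Cone

/-!
The average-case bound for one circuit.
-/

namespace Pool.Agent.H49.AG

open Finset
open Pool.Agent.H25.NM Pool.Agent.H25.NP

theorem core {n q μ K w Q d l L S : ℕ} (hq : q.Prime) (hK : 1 ≤ K) (hL : 1 ≤ L) (hLl : L ≤ l)
    (hnL : n ≤ 2 ^ L) (hw : w = 512 * l ^ 2 * L) (hQ : Q = 4 * l ^ 2) (hn : K * w * q + d ≤ n)
    (hS : S ≤ 2 ^ l) (C : Circuit n S) (out : Fin S) {A : ℕ}
    (hA : ∀ y : ℕ → SimpleGraph (Fin n), Monotone y → ∀ T : ℕ,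
      nc (fun j : Fin T => ∃ i ∈ C.watched, ¬ (C.fn i (y j) ↔ C.fn i (y (j + 1)))) ≤ A) :
    q ^ 2 * nc (fun z : Seed q K w Q => ¬ (C.fn out (cone d (pos n q μ K w Q z)) ↔
      C.fn out (cone d (neg n q μ K w Q z)))) ≤ (4 * A + 3) * Fintype.card (Seed q K w Q) := by
  classical
  have hl : 1 ≤ l := hL.trans hLl
  have hl1 : 1 ≤ l ^ 2 := Nat.one_le_pow _ _ hl
  have hlL : 1 ≤ l ^ 2 * L := Nat.one_le_iff_ne_zero.2 (Nat.mul_ne_zero (by omega) (by omega))
  have hw1 : 512 ≤ w := by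
    rw [hw, mul_assoc]
    omega
  have hn' : K * w * q ≤ n := by omega
  have hq2 := hq.two_le
  have hKw : 512 ≤ K * w := by
    calc 512 = 1 * 512 := rfl
      _ ≤ K * w := Nat.mul_le_mul hK hw1
  have hKwL : K * w + 1 ≤ 2 ^ L := by
    have h1 : K * w * 2 ≤ K * w * q := Nat.mul_le_mul_left _ hq2
    omega
  have hqL : q ≤ 2 ^ L := by
    have h1 : 1 * q ≤ K * w * q := Nat.mul_le_mul_right _ (by omega)
    omega
  have hl2 : 2 ≤ l := by
    by_contra hcon
    have h1 : L = 1 := by omega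
    rw [h1] at hKwL
    omega
  have : NeZero Q := ⟨by omega⟩
  have hq2l : q ^ 2 ≤ 2 ^ (2 * L) := by
    calc q ^ 2 ≤ (2 ^ L) ^ 2 := Nat.pow_le_pow_left hqL 2
      _ = 2 ^ (2 * L) := by rw [← pow_mul, mul_comm]
  have hss : (S + 1) * (S + 2) ≤ 2 ^ (2 * l + 2) := by
    have h1 : 2 ≤ 2 ^ l := by
      calc 2 = 2 ^ 1 := rfl
        _ ≤ 2 ^ l := Nat.pow_le_pow_right (by norm_num) hl
    calc (S + 1) * (S + 2) ≤ (2 * 2 ^ l) * (2 * 2 ^ l) := Nat.mul_le_mul (by omega) (by omega)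
      _ = 2 ^ (2 * l + 2) := by
          rw [pow_add, two_mul l, pow_add]
          ring
  have hm1 : 2 * l + 1 ≤ 2 ^ (2 * l) := Nat.lt_two_pow_self
  have he1 : 2 * (q ^ 2 * ((S + 1) * (S + 2)) * ((2 * l + 1) ^ 2 * 2 ^ (2 * l))) ≤
      32 ^ (2 * l + 1) := by
    have hq2l' : q ^ 2 ≤ 2 ^ (2 * l) :=
      hq2l.trans (Nat.pow_le_pow_right (by norm_num) (by omega))
    calc 2 * (q ^ 2 * ((S + 1) * (S + 2)) * ((2 * l + 1) ^ 2 * 2 ^ (2 * l)))
        ≤ 2 * (2 ^ (2 * l) * 2 ^ (2 * l + 2) * ((2 ^ (2 * l)) ^ 2 * 2 ^ (2 * l))) := by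
          refine Nat.mul_le_mul_left _ (Nat.mul_le_mul (Nat.mul_le_mul hq2l' hss)
            (Nat.mul_le_mul_right _ (Nat.pow_le_pow_left hm1 2)))
      _ = 8 * (2 ^ (2 * l)) ^ 5 := by
          rw [pow_add 2 (2 * l)]
          ring
      _ = 8 * 32 ^ (2 * l) := by
          rw [← pow_mul, mul_comm (2 * l) 5, pow_mul]
          norm_num
      _ ≤ 32 ^ (2 * l + 1) := by
          rw [pow_succ]
          have : 0 < 32 ^ (2 * l) := by positivity
          omega
  have he2 : 2 * (q ^ 2 * ((S + 1) * (S + 2)) * (K * w + 1) ^ (2 * l)) ≤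
      2 ^ (8 * (l * L)) := by
    calc 2 * (q ^ 2 * ((S + 1) * (S + 2)) * (K * w + 1) ^ (2 * l))
        ≤ 2 * (2 ^ (2 * L) * 2 ^ (2 * l + 2) * (2 ^ L) ^ (2 * l)) := by
          refine Nat.mul_le_mul_left _ (Nat.mul_le_mul (Nat.mul_le_mul hq2l hss)
            (Nat.pow_le_pow_left hKwL _))
      _ = 2 ^ (1 + (2 * L + (2 * l + 2)) + L * (2 * l)) := by
          rw [pow_add, pow_add, pow_add, ← pow_mul]
          ring
      _ ≤ 2 ^ (8 * (l * L)) := by
          refine Nat.pow_le_pow_right (by norm_num) ?_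
          nlinarith [Nat.mul_le_mul hl2 hL, Nat.mul_le_mul_right L hl2, Nat.mul_le_mul_left l hL]
  -- the block lemma
  set m : ℕ := 2 * l with hm
  set h : ℕ := 8 * (l * L) with hh
  set s : ℕ := (S + 1) * (S + 2) with hs
  have hVc : Fintype.card (Fin K × Fin w) = K * w := by
    rw [Fintype.card_prod, Fintype.card_fin, Fintype.card_fin]
  have : Nonempty (Fin w) := ⟨⟨0, by omega⟩⟩
  have hh1 : 1 ≤ h := by
    have : 1 * 1 ≤ l * L := Nat.mul_le_mul hl hL
    omega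
  have hB := blockHyp_dense (k := K) (w := w) (Q := Q) m h (by omega) hh1
    (by rw [hQ, hm]; exact le_of_eq (by ring)) (by rw [hw, hm, hh]; exact le_of_eq (by ring))
  set η : ℝ := (1 / 32 : ℝ) ^ (m + 1) with hη
  set ε : ℝ := s * ((m + 1) ^ 2 * 2 ^ m * η + small (Fin K × Fin w) m / ((2 ^ h : ℕ) : ℝ))
    with hε
  -- detectors
  set I : Finset (Fin S) := insert out C.watched with hI
  choose F hF1 hF2 hF3 using C.exists_detector I (Finset.subset_insert _ _)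
  have hmain := chain_sum (φ := blk (K := K) (w := w) hq.pos μ hn') (R := gr (nz Q)) (A := tr)
    (ε := ε) (fun F hF => hB.main (by omega) hF)
    (F := fun G H => F (cone d G) (cone d H)) (fun G => MonoSize.cone (hF1 (cone d G)) d)
    (a := 2 * A + 1) (fun ω => by
      set x : ℕ → SimpleGraph (Fin n) := fun j =>
        cone d (pre (blk (K := K) (w := w) hq.pos μ hn') (gr (nz Q)) ω j) with hx
      have hxm : Monotone x := fun a b hab => cone_mono d (pre_mono ω hab)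
      refine le_trans (nc_mono fun j hj => ?_) (nc_insert_le C out hxm (hA x hxm (q ^ 2)))
      exact (hF3 _ _ (hxm (Nat.le_succ j.1))).1 hj)
  -- the error term
  have hJε : ((q ^ 2 : ℕ) : ℝ) * ε ≤ 1 := by
    rw [hε]
    have g1 : ((q ^ 2 : ℕ) : ℝ) * (s * ((m + 1) ^ 2 * 2 ^ m * η)) ≤ 1 / 2 := by
      have e1 : (2 : ℝ) * ((q : ℝ) ^ 2 * s * ((m + 1) ^ 2 * 2 ^ m)) ≤ 32 ^ (m + 1) := by
        exact_mod_cast he1
      have e2 : η * 32 ^ (m + 1) = 1 := by
        rw [hη, ← mul_pow]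
        norm_num
      have e3 : (0 : ℝ) ≤ η := by
        rw [hη]
        positivity
      have e4 := mul_le_mul_of_nonneg_left e1 e3
      rw [e2] at e4
      push_cast
      linarith
    have g2 : ((q ^ 2 : ℕ) : ℝ) * (s * (small (Fin K × Fin w) m / ((2 ^ h : ℕ) : ℝ))) ≤
        1 / 2 := by
      have e1 : ((q ^ 2 : ℕ) : ℝ) * (s * (small (Fin K × Fin w) m / ((2 ^ h : ℕ) : ℝ))) =
          (2 * ((q ^ 2 : ℕ) : ℝ) * s * small (Fin K × Fin w) m) / ((2 ^ h : ℕ) : ℝ) / 2 := by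
        ring
      rw [e1]
      have e2 : (2 * ((q ^ 2 : ℕ) : ℝ) * s * small (Fin K × Fin w) m) / ((2 ^ h : ℕ) : ℝ) ≤ 1 := by
        rw [div_le_one (by positivity)]
        have e3 := small_le (Fin K × Fin w) m
        rw [hVc] at e3
        have e4 : 2 * q ^ 2 * s * small (Fin K × Fin w) m ≤ 2 ^ h := by
          refine le_trans ?_ he2
          calc 2 * q ^ 2 * s * small (Fin K × Fin w) m ≤ 2 * q ^ 2 * s * (K * w + 1) ^ m :=
                Nat.mul_le_mul_left _ e3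
            _ = _ := by ring
        exact_mod_cast e4
      linarith
    have g3 : ((q ^ 2 : ℕ) : ℝ) * (s * ((m + 1) ^ 2 * 2 ^ m * η +
        small (Fin K × Fin w) m / ((2 ^ h : ℕ) : ℝ))) =
        ((q ^ 2 : ℕ) : ℝ) * (s * ((m + 1) ^ 2 * 2 ^ m * η)) +
        ((q ^ 2 : ℕ) : ℝ) * (s * (small (Fin K × Fin w) m / ((2 ^ h : ℕ) : ℝ))) := by
      ring
    rw [g3]
    linarith
  -- conclusion
  set N := nc (fun z : Seed q K w Q => ¬ (C.fn out (cone d (pos n q μ K w Q z)) ↔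
      C.fn out (cone d (neg n q μ K w Q z)))) with hN
  have hNle : N ≤ nc (fun z : Fin (q ^ 2) × (Fin K → Fin w) ×
      (Fin (q ^ 2) → Sym2 (Fin K × Fin w) → Fin Q) =>
        F (cone d (pre (blk hq.pos μ hn') (gr (nz Q)) z.2.2 z.1.1))
          (cone d (pre (blk hq.pos μ hn') (gr (nz Q)) z.2.2 z.1.1 ⊔
            (cq (tr z.2.1)).map (blk hq.pos μ hn' z.1))) ∨
        F (cone d (pre (blk hq.pos μ hn') (gr (nz Q)) z.2.2 z.1.1))
          (cone d (pre (blk hq.pos μ hn') (gr (nz Q)) z.2.2 (z.1.1 + 1)))) := by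
    refine nc_mono fun z hz => ?_
    rw [← back_eq, ← clique_eq]
    have hz' : ¬ (C.fn out (cone d (back n q μ K w Q z.2.2 z.1 ⊔ clique n q μ K w z.1 z.2.1)) ↔
      C.fn out (cone d (back n q μ K w Q z.2.2 (z.1 + 1)))) := hz
    rw [← back_eq]
    rw [hF3 _ _ (cone_mono d le_sup_left), hF3 _ _ (cone_mono d (by
      rw [back_eq hq.pos hn', back_eq hq.pos hn']
      exact pre_mono _ (Nat.le_succ _)))]
    by_contra hcon
    rw [not_or] at hcon
    push Not at hcon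
    have e1 := hcon.1 out (Finset.mem_insert_self _ _)
    have e2 := hcon.2 out (Finset.mem_insert_self _ _)
    exact hz' (e1.symm.trans e2)
  have hcard : Fintype.card (Seed q K w Q) = q ^ 2 * (Fintype.card (Fin K → Fin w) *
      Fintype.card (Fin (q ^ 2) → Sym2 (Fin K × Fin w) → Fin Q)) := by
    rw [Fintype.card_prod, Fintype.card_prod, Fintype.card_fin]
  rw [hcard]
  set X := Fintype.card (Fin K → Fin w) *
      Fintype.card (Fin (q ^ 2) → Sym2 (Fin K × Fin w) → Fin Q) with hX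
  have hfin : (N : ℝ) ≤ (4 * A + 3) * X := by
    have e1 : (N : ℝ) ≤ _ := (Nat.cast_le (α := ℝ).2 hNle).trans hmain
    refine e1.trans ?_
    rw [hX]
    push_cast at hJε ⊢
    refine mul_le_mul_of_nonneg_right ?_ (by positivity)
    linarith
  have hfin' : N ≤ (4 * A + 3) * X := by exact_mod_cast hfin
  calc q ^ 2 * N ≤ q ^ 2 * ((4 * A + 3) * X) := Nat.mul_le_mul_left _ hfin'
    _ = _ := by ring

end Pool.Agent.H49.AG
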