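import Mathlib

/-!
An explicit pair of random graphs. The vertices `u * q + c`, `c < q`, form column `u`; the columns
are indexed by pairs `(a, b)`, `a < K`, `b < w`. For `j < q ^ 2` block number `j` contains one
vertex of every column.
-/

namespace Pool.Agent.H49.AG

/-- The row of block `j` in column `u`: the value at `j / q` of the polynomial without constant
term whose coefficients are the `μ` lowest digits of `u` in base `q`, plus `j`, modulo `q`. -/
def row (q μ j u : ℕ) : ℕ :=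
  (∑ i ∈ Finset.range μ, u / q ^ i % q * (j / q) ^ (i + 1) + j) % q

/-- The vertex of block `j` in the column with index `(a, b)`. -/
def vtx (q μ j : ℕ) {K w : ℕ} (u : Fin K × Fin w) : ℕ :=
  (u.1 * w + u.2) * q + row q μ j (u.1 * w + u.2)

/-- The union of the first `j` random blocks: two vertices of block `i` are joined unless the
label in `ω i` of their pair of columns is `0`. -/
def back (n q μ K w Q : ℕ) (ω : Fin (q ^ 2) → Sym2 (Fin K × Fin w) → Fin Q) (j : ℕ) :
    SimpleGraph (Fin n) where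
  Adj x y := x ≠ y ∧ ∃ i : Fin (q ^ 2), i < j ∧ ∃ u v : Fin K × Fin w,
    (ω i s(u, v) : ℕ) ≠ 0 ∧ (x : ℕ) = vtx q μ i u ∧ (y : ℕ) = vtx q μ i v
  symm := ⟨fun _ _ ⟨h, i, hi, u, v, h1, h2, h3⟩ =>
    ⟨h.symm, i, hi, v, u, by rwa [Sym2.eq_swap], h3, h2⟩⟩
  loopless := ⟨fun _ h => h.1 rfl⟩

/-- The complete graph on the `K` vertices of block `j` in the columns `(a, p a)`. -/
def clique (n q μ K w : ℕ) (j : ℕ) (p : Fin K → Fin w) : SimpleGraph (Fin n) where
  Adj x y := x ≠ y ∧ ∃ a b : Fin K, (x : ℕ) = vtx q μ j (a, p a) ∧ (y : ℕ) = vtx q μ j (b, p b)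
  symm := ⟨fun _ _ ⟨h, a, b, h1, h2⟩ => ⟨h.symm, b, a, h2, h1⟩⟩
  loopless := ⟨fun _ h => h.1 rfl⟩

/-- The random choices: a block, a choice of columns, and the labels. -/
abbrev Seed (q K w Q : ℕ) : Type :=
  Fin (q ^ 2) × (Fin K → Fin w) × (Fin (q ^ 2) → Sym2 (Fin K × Fin w) → Fin Q)

/-- The blocks before the chosen block and the planted clique. -/
def pos (n q μ K w Q : ℕ) (z : Seed q K w Q) : SimpleGraph (Fin n) :=
  back n q μ K w Q z.2.2 z.1 ⊔ clique n q μ K w z.1 z.2.1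

/-- The blocks up to the chosen block. -/
def neg (n q μ K w Q : ℕ) (z : Seed q K w Q) : SimpleGraph (Fin n) :=
  back n q μ K w Q z.2.2 (z.1 + 1)

/-- `G` with its last `d` vertices made adjacent to all vertices. -/
def cone {n : ℕ} (d : ℕ) (G : SimpleGraph (Fin n)) : SimpleGraph (Fin n) where
  Adj x y := x ≠ y ∧ (G.Adj x y ∨ n ≤ x + d ∨ n ≤ y + d)
  symm := ⟨fun _ _ ⟨h, h'⟩ => ⟨h.symm, h'.elim (fun h => Or.inl h.symm) fun h => Or.inr h.symm⟩⟩
  loopless := ⟨fun _ h => h.1 rfl⟩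

end Pool.Agent.H49.AG
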