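import Pool.Agent.H49.AG.Defs
import Pool.Agent.H25.NM.Clique

/-!
The blocks are a design: two vertices of different columns lie in at most `μ` common blocks.
-/

namespace Pool.Agent.H49.AG

open Finset
open Pool.Agent.H25.NM (nc nc_eq nc_false)

theorem idx_lt {K w : ℕ} (u : Fin K × Fin w) : (u.1 * w + u.2 : ℕ) < K * w := by
  have h1 := u.1.2
  have h2 := u.2.2
  calc (u.1 * w + u.2 : ℕ) < u.1 * w + w := by omega
    _ = (u.1 + 1) * w := by ring
    _ ≤ K * w := Nat.mul_le_mul_right _ h1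

theorem idx_inj {K w : ℕ} {u v : Fin K × Fin w} (h : (u.1 * w + u.2 : ℕ) = v.1 * w + v.2) :
    u = v := by
  have h1 := u.2.2
  have h2 := v.2.2
  have hw : 0 < w := by omega
  have e1 : (u.1 * w + u.2 : ℕ) / w = u.1 := by
    rw [mul_comm, Nat.mul_add_div hw, Nat.div_eq_of_lt h1, add_zero]
  have e2 : (v.1 * w + v.2 : ℕ) / w = v.1 := by
    rw [mul_comm, Nat.mul_add_div hw, Nat.div_eq_of_lt h2, add_zero]
  have h3 : (u.1 : ℕ) = v.1 := by rw [← e1, h, e2]
  have h4 : (u.2 : ℕ) = v.2 := by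
    rw [h3] at h
    omega
  exact Prod.ext (Fin.ext h3) (Fin.ext h4)

theorem row_lt {q : ℕ} (hq : 0 < q) (μ j u : ℕ) : row q μ j u < q := Nat.mod_lt _ hq

theorem vtx_div {q : ℕ} (hq : 0 < q) (μ j : ℕ) {K w : ℕ} (u : Fin K × Fin w) :
    vtx q μ j u / q = u.1 * w + u.2 := by
  unfold vtx
  rw [mul_comm, Nat.mul_add_div hq, Nat.div_eq_of_lt (row_lt hq _ _ _), add_zero]

theorem vtx_mod {q : ℕ} (hq : 0 < q) (μ j : ℕ) {K w : ℕ} (u : Fin K × Fin w) :
    vtx q μ j u % q = row q μ j (u.1 * w + u.2) := by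
  unfold vtx
  rw [mul_comm, Nat.mul_add_mod, Nat.mod_eq_of_lt (row_lt hq _ _ _)]

theorem vtx_lt {q n : ℕ} (hq : 0 < q) (μ j : ℕ) {K w : ℕ} (hn : K * w * q ≤ n)
    (u : Fin K × Fin w) : vtx q μ j u < n := by
  have h1 := row_lt hq μ j (u.1 * w + u.2)
  have h2 := idx_lt u
  unfold vtx
  calc (u.1 * w + u.2 : ℕ) * q + row q μ j (u.1 * w + u.2)
      < (u.1 * w + u.2) * q + q := by omega
    _ = (u.1 * w + u.2 + 1) * q := by ring
    _ ≤ K * w * q := Nat.mul_le_mul_right _ h2
    _ ≤ n := hn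

theorem vtx_inj {q : ℕ} (hq : 0 < q) (μ j j' : ℕ) {K w : ℕ} {u v : Fin K × Fin w}
    (h : vtx q μ j u = vtx q μ j' v) : u = v := by
  apply idx_inj
  rw [← vtx_div hq μ j u, h, vtx_div hq μ j' v]

/-- Block `j` as an embedding. -/
def blk {q n : ℕ} (hq : 0 < q) (μ : ℕ) {K w : ℕ} (hn : K * w * q ≤ n) (j : Fin (q ^ 2)) :
    (Fin K × Fin w) ↪ Fin n :=
  ⟨fun u => ⟨vtx q μ j u, vtx_lt hq μ j hn u⟩, fun _ _ h => vtx_inj hq μ j j (Fin.ext_iff.1 h)⟩

/-- Two different polynomials take given values together at most `μ` times. -/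
theorem few_blocks {q μ : ℕ} (hq : q.Prime) {a b : ℕ} (ha : a < q ^ μ) (hb : b < q ^ μ)
    (hab : a ≠ b) (c d : ℕ) :
    (univ.filter fun j : Fin (q ^ 2) => row q μ j a = c ∧ row q μ j b = d).card ≤ μ := by
  classical
  have : Fact q.Prime := ⟨hq⟩
  have hq0 : 0 < q := hq.pos
  -- some digit differs
  obtain ⟨t, ht, hdig⟩ : ∃ t < μ, a / q ^ t % q ≠ b / q ^ t % q := by
    by_contra hcon
    push Not at hcon
    apply hab
    have key : ∀ m, m ≤ μ → a % q ^ m = b % q ^ m := by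
      intro m
      induction m with
      | zero => intro _; simp [Nat.mod_one]
      | succ m ih =>
        intro hm
        rw [Nat.mod_pow_succ, Nat.mod_pow_succ, ih (by omega), hcon m (by omega)]
    have := key μ le_rfl
    rwa [Nat.mod_eq_of_lt ha, Nat.mod_eq_of_lt hb] at this
  let P : Polynomial (ZMod q) := ∑ i ∈ range μ,
    Polynomial.C ((a / q ^ i % q : ℕ) - (b / q ^ i % q : ℕ) : ZMod q) * Polynomial.X ^ (i + 1) -
      Polynomial.C ((c : ZMod q) - d)
  have hcoef : P.coeff (t + 1) = ((a / q ^ t % q : ℕ) - (b / q ^ t % q : ℕ) : ZMod q) := by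
    show (∑ i ∈ range μ, Polynomial.C ((a / q ^ i % q : ℕ) - (b / q ^ i % q : ℕ) : ZMod q) *
      Polynomial.X ^ (i + 1) - Polynomial.C ((c : ZMod q) - d)).coeff (t + 1) = _
    rw [Polynomial.coeff_sub, Polynomial.finsetSum_coeff, Polynomial.coeff_C_succ, sub_zero]
    simp only [Polynomial.coeff_C_mul, Polynomial.coeff_X_pow]
    rw [Finset.sum_eq_single t]
    · simp
    · intro i _ hi
      rw [if_neg (by omega), mul_zero]
    · intro h
      exact absurd (Finset.mem_range.2 ht) h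
  have hP : P ≠ 0 := by
    intro h0
    rw [h0, Polynomial.coeff_zero] at hcoef
    have h1 := sub_eq_zero.1 hcoef.symm
    have h2 := (ZMod.natCast_eq_natCast_iff' _ _ _).1 h1
    rw [Nat.mod_mod, Nat.mod_mod] at h2
    exact hdig h2
  have hdeg : P.natDegree ≤ μ := by
    refine (Polynomial.natDegree_sub_le _ _).trans (max_le ?_ (by rw [Polynomial.natDegree_C]; exact Nat.zero_le _))
    refine Polynomial.natDegree_sum_le_of_forall_le _ _ fun i hi => ?_
    refine (Polynomial.natDegree_C_mul_X_pow_le _ _).trans ?_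
    have := Finset.mem_range.1 hi
    omega
  have hroots : P.roots.toFinset.card ≤ μ :=
    (Multiset.toFinset_card_le _).trans ((Polynomial.card_roots' P).trans hdeg)
  refine le_trans ?_ hroots
  have hcast : ∀ (j : ℕ) (u : ℕ), ((row q μ j u : ℕ) : ZMod q) =
      ∑ i ∈ range μ, ((u / q ^ i % q : ℕ) : ZMod q) * ((j / q : ℕ) : ZMod q) ^ (i + 1) + j := by
    intro j u
    unfold row
    rw [ZMod.natCast_mod]
    push_cast
    rfl
  refine Finset.card_le_card_of_injOn (fun j => ((j.1 / q : ℕ) : ZMod q)) ?_ ?_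
  · intro j hj
    obtain ⟨h1, h2⟩ := (Finset.mem_filter.1 (Finset.mem_coe.1 hj)).2
    rw [Finset.mem_coe, Multiset.mem_toFinset, Polynomial.mem_roots hP]
    show P.eval _ = 0
    show (∑ i ∈ range μ, Polynomial.C ((a / q ^ i % q : ℕ) - (b / q ^ i % q : ℕ) : ZMod q) *
      Polynomial.X ^ (i + 1) - Polynomial.C ((c : ZMod q) - d)).eval _ = 0
    rw [Polynomial.eval_sub, Polynomial.eval_C, Polynomial.eval_finsetSum]
    simp only [Polynomial.eval_mul, Polynomial.eval_C, Polynomial.eval_pow, Polynomial.eval_X]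
    have e1 := hcast j.1 a
    have e2 := hcast j.1 b
    rw [h1] at e1
    rw [h2] at e2
    rw [e1, e2]
    simp only [sub_mul, Finset.sum_sub_distrib]
    ring
  · intro i hi j hj hij
    obtain ⟨h1, _⟩ := (Finset.mem_filter.1 (Finset.mem_coe.1 hi)).2
    obtain ⟨h2, _⟩ := (Finset.mem_filter.1 (Finset.mem_coe.1 hj)).2
    have hij' : ((i.1 / q : ℕ) : ZMod q) = ((j.1 / q : ℕ) : ZMod q) := hij
    have e1 := hcast i.1 a
    have e2 := hcast j.1 a
    rw [h1] at e1
    rw [h2, ← hij'] at e2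
    have h3 : ((i.1 : ℕ) : ZMod q) = ((j.1 : ℕ) : ZMod q) := by
      have := e1.symm.trans e2
      exact add_left_cancel this
    have h4 := (ZMod.natCast_eq_natCast_iff' _ _ _).1 h3
    have h5 := (ZMod.natCast_eq_natCast_iff' _ _ _).1 hij'
    have h6 : i.1 / q < q := by
      rw [Nat.div_lt_iff_lt_mul hq0]
      exact i.2.trans_eq (sq q)
    have h7 : j.1 / q < q := by
      rw [Nat.div_lt_iff_lt_mul hq0]
      exact j.2.trans_eq (sq q)
    rw [Nat.mod_eq_of_lt h6, Nat.mod_eq_of_lt h7] at h5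
    apply Fin.ext
    rw [← Nat.div_add_mod i.1 q, ← Nat.div_add_mod j.1 q, h4, h5]

/-- Every pair of vertices has at most `μ` positions. -/
theorem positions_le {q μ n K w : ℕ} (hq : q.Prime) (hv : K * w ≤ q ^ μ) (hn : K * w * q ≤ n)
    (e : Sym2 (Fin n)) (he : ¬ e.IsDiag) :
    nc (fun p : Fin (q ^ 2) × Sym2 (Fin K × Fin w) =>
      Sym2.map (blk hq.pos μ hn p.1) p.2 = e) ≤ μ := by
  classical
  by_cases hex : ∃ p : Fin (q ^ 2) × Sym2 (Fin K × Fin w), Sym2.map (blk hq.pos μ hn p.1) p.2 = e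
  · obtain ⟨⟨j₀, e₀⟩, hp⟩ := hex
    induction e₀ using Sym2.ind with
    | _ u v =>
      simp only [Sym2.map_mk] at hp
      have huv : u ≠ v := by
        rintro rfl
        exact he (hp ▸ Sym2.mk_isDiag_iff.2 rfl)
      have hne : (u.1 * w + u.2 : ℕ) ≠ v.1 * w + v.2 := fun h => huv (idx_inj h)
      refine le_trans ?_ (few_blocks hq ((idx_lt u).trans_le hv) ((idx_lt v).trans_le hv) hne
        (row q μ j₀ (u.1 * w + u.2)) (row q μ j₀ (v.1 * w + v.2)))
      rw [nc_eq]
      have hall : ∀ p : Fin (q ^ 2) × Sym2 (Fin K × Fin w),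
          Sym2.map (blk hq.pos μ hn p.1) p.2 = e →
          p.2 = s(u, v) ∧ row q μ p.1 (u.1 * w + u.2) = row q μ j₀ (u.1 * w + u.2) ∧
            row q μ p.1 (v.1 * w + v.2) = row q μ j₀ (v.1 * w + v.2) := by
        rintro ⟨j, e'⟩ h
        induction e' using Sym2.ind with
        | _ u' v' =>
          simp only [Sym2.map_mk] at h
          rw [← hp, Sym2.eq_iff] at h
          rcases h with ⟨h1, h2⟩ | ⟨h1, h2⟩
          · have g1 : vtx q μ j u' = vtx q μ j₀ u := Fin.ext_iff.1 h1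
            have g2 : vtx q μ j v' = vtx q μ j₀ v := Fin.ext_iff.1 h2
            have i1 := vtx_inj hq.pos _ _ _ g1
            have i2 := vtx_inj hq.pos _ _ _ g2
            subst i1
            subst i2
            refine ⟨rfl, ?_, ?_⟩
            · rw [← vtx_mod hq.pos, g1, vtx_mod hq.pos]
            · rw [← vtx_mod hq.pos, g2, vtx_mod hq.pos]
          · have g1 : vtx q μ j u' = vtx q μ j₀ v := Fin.ext_iff.1 h1
            have g2 : vtx q μ j v' = vtx q μ j₀ u := Fin.ext_iff.1 h2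
            have i1 := vtx_inj hq.pos _ _ _ g1
            have i2 := vtx_inj hq.pos _ _ _ g2
            subst i1
            subst i2
            refine ⟨Sym2.eq_swap, ?_, ?_⟩
            · rw [← vtx_mod hq.pos, g2, vtx_mod hq.pos]
            · rw [← vtx_mod hq.pos, g1, vtx_mod hq.pos]
      refine Finset.card_le_card_of_injOn Prod.fst ?_ ?_
      · intro p hp'
        have h1 := (Finset.mem_filter.1 (Finset.mem_coe.1 hp')).2
        exact Finset.mem_coe.2 (Finset.mem_filter.2 ⟨Finset.mem_univ _, (hall p h1).2⟩)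
      · intro p hp' p' hp'' hpp
        have h1 := (Finset.mem_filter.1 (Finset.mem_coe.1 hp')).2
        have h2 := (Finset.mem_filter.1 (Finset.mem_coe.1 hp'')).2
        exact Prod.ext hpp ((hall p h1).1.trans (hall p' h2).1.symm)
  · rw [nc_false fun p hp => hex ⟨p, hp⟩]
    exact Nat.zero_le _

end Pool.Agent.H49.AG
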