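import Pool.Agent.H49.AG.Maps

/-!
Randomised circuits for the gap problem.
-/

set_option linter.unusedSectionVars false

namespace Pool.Agent.H49.AG

open Finset
open Pool.Agent.H25.NP
open Pool.Agent.H25.NM (nc nc_eq nc_mono nc_congr nc_or_le nc_le_card nc_add_nc_not nc_false
  nc_true nc_prod nc_bex_le nc_mem nc_forall_mem_gen nc_equiv)

theorem upper_gap {s g S₀ : ℕ} (C₀ : Circuit (s * g) S₀)
    (h1 : ∀ i ∈ C₀.special, (C₀.ins i).card ≤ 1) (out₀ : Fin S₀)
    (hC : (∀ G : SimpleGraph (Fin (s * g)), C₀.fn out₀ G ↔ ¬ G.CliqueFree s) ∨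
      (∀ G : SimpleGraph (Fin (s * g)), C₀.fn out₀ G ↔ G.CliqueFree s))
    {D r T : ℕ} (hD : 1 ≤ D) (hr : 1 ≤ r) (hT : (s * g).choose 2 < T * (D * 2 ^ r))
    {n K t : ℕ} (hn : 1 ≤ n) (hKn : K ≤ n) (hs : 4 * s ≤ 2 ^ t)
    (hg : s * n * t ≤ g * (K - s)) :
    ∃ (N : ℕ) (S : Fin N → ℕ) (C : ∀ i, Circuit n (S i)) (out : ∀ i, Fin (S i)), 1 ≤ N ∧
      (∀ i, S i ≤ 2 ^ 7 * D * S₀ * ((s * g).choose 2 + 1) ^ (D + 2) ∧
        (C i).special.card ≤ r + 1 ∧ ∀ j ∈ (C i).special, ((C i).ins j).card ≤ 1) ∧
      ∀ G : SimpleGraph (Fin n),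
        (G.CliqueFree s → 2 * T * nc (fun i => (C i).fn (out i) G) = (T - 1) * N) ∧
        (¬ G.CliqueFree K → (2 * T + 1) * N ≤ 4 * T * nc (fun i => (C i).fn (out i) G)) := by
  classical
  obtain ⟨S, C, out, g1, g2⟩ := upper_exact C₀ h1 out₀
    (f := fun G : SimpleGraph (Fin (s * g)) => ¬ G.CliqueFree s)
    (fun G H hGH hG hH => hG (hH.anti hGH))
    (by
      rcases hC with hC | hC
      · exact Or.inl hC
      · exact Or.inr fun G => (hC G).trans not_not.symm) hD hr hT
  choose C' k1 k2 k3 using fun (x : (Fin (s * g) → Fin n) × (Fin T × Bool)) =>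
    circuit_pull (C x.2) x.1
  have hT0 : 1 ≤ T := by
    rcases Nat.eq_zero_or_pos T with h | h
    · rw [h, Nat.zero_mul] at hT
      omega
    · exact h
  let I : Type := (Fin (s * g) → Fin n) × (Fin T × Bool)
  let e : Fin (Fintype.card I) ≃ I := (Fintype.equivFin I).symm
  have hcard : Fintype.card I = n ^ (s * g) * (2 * T) := by
    show Fintype.card ((Fin (s * g) → Fin n) × (Fin T × Bool)) = _
    rw [Fintype.card_prod, Fintype.card_prod, Fintype.card_fun, Fintype.card_fin, Fintype.card_fin,
      Fintype.card_fin, Fintype.card_bool, mul_comm T 2]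
  have hpos : 0 < n ^ (s * g) := Nat.pow_pos (by omega)
  refine ⟨Fintype.card I, fun i => S (e i).2, fun i => C' (e i), fun i => out (e i).2, ?_,
    fun i => ⟨(g1 (e i).2).1, ?_, ?_⟩, ?_⟩
  · rw [hcard]
    exact Nat.mul_pos hpos (by omega)
  · rw [k1]
    exact (g1 (e i).2).2.1
  · intro j hj
    rw [k1] at hj
    rw [k2]
    exact (g1 (e i).2).2.2 j hj
  · intro G
    -- counting
    have hnc : nc (fun i : Fin (Fintype.card I) => (C' (e i)).fn (out (e i).2) G) =
        (T - 1) * n ^ (s * g) +
          2 * nc (fun σ : Fin (s * g) → Fin n => ¬ (G.comap σ).CliqueFree s) := by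
      have e1 := nc_equiv e fun x : I => (C' x).fn (out x.2) G
      rw [e1]
      have e2 : nc (fun x : I => (C' x).fn (out x.2) G) =
          nc (fun x : (Fin (s * g) → Fin n) × (Fin T × Bool) =>
            (C x.2).fn (out x.2) (G.comap x.1)) := nc_congr fun x => k3 x _ G
      have e3 := nc_prod fun (σ : Fin (s * g) → Fin n) (y : Fin T × Bool) =>
        (C y).fn (out y) (G.comap σ)
      rw [e2, e3, Finset.sum_congr rfl fun σ _ => g2 (G.comap σ), Finset.sum_add_distrib,
        Finset.sum_const, Finset.card_univ, Fintype.card_fun, Fintype.card_fin, Fintype.card_fin,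
        smul_eq_mul, mul_comm (n ^ (s * g)), nc_eq, Finset.card_filter, Finset.mul_sum]
      congr 1
      refine Finset.sum_congr rfl fun σ _ => ?_
      by_cases h : (G.comap σ).CliqueFree s
      · rw [if_neg (not_not.2 h), if_neg (not_not.2 h), mul_zero]
      · rw [if_pos h, if_pos h, mul_one]
    rw [hnc, hcard]
    constructor
    · intro hG
      rw [Pool.Agent.H25.NM.nc_false fun σ h => h (cliqueFree_pull hG σ)]
      ring
    · intro hG
      have hgood : 4 * nc (fun σ : Fin (s * g) → Fin n => (G.comap σ).CliqueFree s) ≤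
          n ^ (s * g) := by
        rcases Nat.eq_zero_or_pos s with h0 | h0
        · subst h0
          refine maps_good (k' := 0) hG (by omega) (by simp) (by omega)
        · refine maps_good (k' := K / s) hG (Nat.mul_div_le K s) ?_ (by omega)
          refine maps_num (t := t) (by omega) ((Nat.div_le_self K s).trans hKn) hs ?_
          refine Nat.le_of_mul_le_mul_left ?_ h0
          have h2 : K - s ≤ s * (K / s) := by
            have := Nat.lt_mul_div_succ K h0
            rw [mul_add, mul_one] at this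
            omega
          calc s * (n * t) = s * n * t := by ring
            _ ≤ g * (K - s) := hg
            _ ≤ g * (s * (K / s)) := Nat.mul_le_mul_left _ h2
            _ = s * (g * (K / s)) := by ring
      have hsum := nc_add_nc_not fun σ : Fin (s * g) → Fin n => (G.comap σ).CliqueFree s
      rw [Fintype.card_fun, Fintype.card_fin, Fintype.card_fin] at hsum
      set a := nc (fun σ : Fin (s * g) → Fin n => (G.comap σ).CliqueFree s) with ha
      set b := nc (fun σ : Fin (s * g) → Fin n => ¬ (G.comap σ).CliqueFree s) with hb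
      set X := n ^ (s * g) with hX
      obtain ⟨T', rfl⟩ : ∃ T', T = T' + 1 := ⟨T - 1, by omega⟩
      rw [Nat.add_sub_cancel]
      have h3 : 3 * X ≤ 4 * b := by omega
      have h4 : (T' + 1) * (3 * X) ≤ (T' + 1) * (4 * b) := Nat.mul_le_mul_left _ h3
      nlinarith

end Pool.Agent.H49.AG
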