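import Pool.Agent.H49.AG.Worst
import Pool.Agent.H49.AG.Gap

/-!
The final form of the theorems.
-/

namespace Pool.Agent.H49.AG

open Finset
open Pool.Agent.H25.NM (nc nc_eq nc_equiv)
open Pool.Agent.H25.NP (Circuit Quantified)

theorem ncard_eq {α : Type} [Fintype α] (p : α → Prop) : {x | p x}.ncard = nc p := by
  classical
  rw [nc_eq, Set.ncard_eq_toFinset_card']
  congr 1
  ext x
  simp

/-- **A hard distribution.** -/
theorem hard {n L l μ K d s : ℕ} (hK : 1 ≤ K) (hL : 1 ≤ L) (hLl : L ≤ l)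
    (hnL : n ≤ 2 ^ L) (hd : 2 * d ≤ n)
    (hvn : 4 ^ μ * (512 * l ^ 2 * L * K) ^ (μ + 1) ≤ n ^ μ)
    (hs : 2 * (4 * l ^ 2) ^ μ * (L + 1) < s) :
    ∃ (M : ℕ) (X Y : Fin M → SimpleGraph (Fin n)), 1 ≤ M ∧
      (∀ z, ¬ (X z).CliqueFree (K + d) ∧ (Y z).CliqueFree (s + d)) ∧
      (∀ (S : ℕ) (C : Circuit n S) (out : Fin S), S ≤ 2 ^ l →
        ∃ A : ℕ, n ^ 2 * {z | ¬ (C.fn out (X z) ↔ C.fn out (Y z))}.ncard ≤
            65 * (512 * l ^ 2 * L * K) ^ 2 * (A + 1) * M ∧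
          ∃ y : ℕ → SimpleGraph (Fin n), Monotone y ∧
            ∀ a < A, ∃ i ∈ C.watched, ¬ (C.fn i (y a) ↔ C.fn i (y (a + 1)))) ∧
      (∀ (h S r t : ℕ) (B : Fin h → Bool) (C : (Fin h → Bool) → Circuit n S)
        (out : (Fin h → Bool) → Fin S), 2 ^ h * (S + 1) ≤ 2 ^ l → 1 ≤ t →
        (∀ y, (C y).special.card ≤ r) → (∀ y, ∀ j ∈ (C y).special, ((C y).ins j).card ≤ t) →
        n ^ 2 * {z | ¬ (Quantified h B (fun y => (C y).fn (out y) (X z)) ↔
            Quantified h B (fun y => (C y).fn (out y) (Y z)))}.ncard ≤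
          65 * (512 * l ^ 2 * L * K) ^ 2 * (t * 2 ^ (h + r)) * M) := by
  classical
  have hl : 1 ≤ l := hL.trans hLl
  have hl1 : 1 ≤ l ^ 2 := Nat.one_le_pow _ _ hl
  have hlL : 1 ≤ l ^ 2 * L := Nat.one_le_iff_ne_zero.2 (Nat.mul_ne_zero (by omega) (by omega))
  have hw1 : 512 ≤ 512 * l ^ 2 * L := by
    rw [mul_assoc]
    omega
  rw [mul_comm (512 * l ^ 2 * L) K] at hvn ⊢
  set w := 512 * l ^ 2 * L with hw
  have hv : 512 ≤ K * w := by
    calc 512 = 1 * 512 := rfl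
      _ ≤ K * w := Nat.mul_le_mul hK hw1
  obtain ⟨q, hq, hq1, hq2, hq3⟩ := exists_prime hv hd hvn
  set Q := 4 * l ^ 2 with hQ
  have hQ1 : 1 ≤ Q := by omega
  have hμ : 1 ≤ μ := by
    rcases Nat.eq_zero_or_pos μ with h0 | h0
    · rw [h0, pow_zero] at hq2
      omega
    · exact h0
  have : NeZero Q := ⟨by omega⟩
  have : Nonempty (Fin w) := ⟨⟨0, by omega⟩⟩
  have : Nonempty (Fin (q ^ 2)) := ⟨⟨0, Nat.pow_pos hq.pos⟩⟩
  have h1 : n ^ 2 ≤ 16 * (K * w) ^ 2 * q ^ 2 := by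
    calc n ^ 2 ≤ (4 * (K * w * q)) ^ 2 := Nat.pow_le_pow_left hq3.le 2
      _ = _ := by ring
  -- the good choices
  let G : Type := {z : Seed q K w Q // (cone d (neg n q μ K w Q z)).CliqueFree (s + d)}
  let e : Fin (Fintype.card G) ≃ G := (Fintype.equivFin _).symm
  have hbad := neg_clique (d := d) (s := s) (μ := μ) hq hQ1 hnL hq2 hq1 hs
  have hcard : nc (fun z : Seed q K w Q => ¬ (cone d (neg n q μ K w Q z)).CliqueFree (s + d)) +
      Fintype.card G = Fintype.card (Seed q K w Q) := by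
    have h2 := Pool.Agent.H25.NM.nc_add_nc_not fun z : Seed q K w Q =>
      ¬ (cone d (neg n q μ K w Q z)).CliqueFree (s + d)
    have h3 : Fintype.card G = nc fun z : Seed q K w Q =>
        ¬ ¬ (cone d (neg n q μ K w Q z)).CliqueFree (s + d) := by
      rw [nc_eq, Fintype.card_subtype]
      congr 1
      ext z
      simp
    rw [h3]
    exact h2
  have hpos : 0 < Fintype.card (Seed q K w Q) := Fintype.card_pos
  have hs65 : 65 ≤ 2 ^ s := by
    have h2 : 7 ≤ s := by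
      have h3 : 4 ≤ Q ^ μ := by
        calc 4 ≤ Q := by omega
          _ = Q ^ 1 := (pow_one _).symm
          _ ≤ Q ^ μ := Nat.pow_le_pow_right hQ1 hμ
      have h4 : 2 * 4 * (L + 1) ≤ 2 * Q ^ μ * (L + 1) :=
        Nat.mul_le_mul_right _ (Nat.mul_le_mul_left _ h3)
      omega
    calc 65 ≤ 2 ^ 7 := by norm_num
      _ ≤ 2 ^ s := Nat.pow_le_pow_right (by norm_num) h2
  have h65 : 64 * Fintype.card (Seed q K w Q) ≤ 65 * Fintype.card G := by
    have h2 := (Nat.mul_le_mul_right (nc fun z : Seed q K w Q =>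
      ¬ (cone d (neg n q μ K w Q z)).CliqueFree (s + d)) hs65).trans hbad
    omega
  have hGpos : 1 ≤ Fintype.card G := by omega
  -- restriction to the good choices
  have hle : ∀ p : Seed q K w Q → Prop,
      {i : Fin (Fintype.card G) | p (e i).1}.ncard ≤ nc p := by
    intro p
    rw [ncard_eq, nc_equiv e fun z : G => p z.1, nc_eq, nc_eq]
    refine Finset.card_le_card_of_injOn Subtype.val ?_ Subtype.val_injective.injOn
    intro z hz
    have hz' := (Finset.mem_filter.1 (Finset.mem_coe.1 hz)).2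
    exact Finset.mem_coe.2 (Finset.mem_filter.2 ⟨Finset.mem_univ _, hz'⟩)
  have key : ∀ (p : Seed q K w Q → Prop) (c : ℕ),
      q ^ 2 * nc p ≤ 4 * c * Fintype.card (Seed q K w Q) →
      n ^ 2 * {i : Fin (Fintype.card G) | p (e i).1}.ncard ≤
        65 * (K * w) ^ 2 * c * Fintype.card G := by
    intro p c hp
    calc n ^ 2 * {i : Fin (Fintype.card G) | p (e i).1}.ncard
        ≤ 16 * (K * w) ^ 2 * q ^ 2 * nc p := Nat.mul_le_mul h1 (hle p)
      _ = 16 * (K * w) ^ 2 * (q ^ 2 * nc p) := by ring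
      _ ≤ 16 * (K * w) ^ 2 * (4 * c * Fintype.card (Seed q K w Q)) := Nat.mul_le_mul_left _ hp
      _ = (K * w) ^ 2 * c * (64 * Fintype.card (Seed q K w Q)) := by ring
      _ ≤ (K * w) ^ 2 * c * (65 * Fintype.card G) := Nat.mul_le_mul_left _ h65
      _ = _ := by ring
  refine ⟨Fintype.card G, fun i => cone d (pos n q μ K w Q (e i).1),
    fun i => cone d (neg n q μ K w Q (e i).1), hGpos,
    fun i => ⟨pos_clique hq.pos hq1 _, (e i).2⟩, fun S C out hS => ?_,
    fun h S r t B C out hS ht0 hr ht => ?_⟩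
  · obtain ⟨A, hA, y, hy, hAy⟩ := core_exists (μ := μ) (d := d) hq hK hL hLl hnL hw hQ hq1 hS C out
    refine ⟨A, key (fun z => ¬ (C.fn out (cone d (pos n q μ K w Q z)) ↔
      C.fn out (cone d (neg n q μ K w Q z)))) (A + 1) (hA.trans
        (Nat.mul_le_mul_right _ (by omega))), y, hy, hAy⟩
  · exact key (fun z =>
      ¬ (Quantified h B (fun y => (C y).fn (out y) (cone d (pos n q μ K w Q z))) ↔
        Quantified h B (fun y => (C y).fn (out y) (cone d (neg n q μ K w Q z)))))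
      (t * 2 ^ (h + r))
      (core_quant (μ := μ) (d := d) hq hK hL hLl hnL hw hQ hq1 hS B C out ht0 hr ht)

/-- Randomised circuits for monotone properties. -/
theorem upper_fin {n S₀ : ℕ} (C₀ : Circuit n S₀)
    (h1 : ∀ i ∈ C₀.special, (C₀.ins i).card ≤ 1) (out₀ : Fin S₀)
    {f : SimpleGraph (Fin n) → Prop} (hf : ∀ G H, G ≤ H → f G → f H)
    (hC : (∀ G, C₀.fn out₀ G ↔ f G) ∨ (∀ G, C₀.fn out₀ G ↔ ¬ f G))
    {D r T : ℕ} (hD : 1 ≤ D) (hr : 1 ≤ r) (hT : n.choose 2 < T * (D * 2 ^ r)) :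
    ∃ (S : Fin (2 * T) → ℕ) (C : ∀ i, Circuit n (S i)) (out : ∀ i, Fin (S i)),
      (∀ i, S i ≤ 2 ^ 7 * D * S₀ * (n.choose 2 + 1) ^ (D + 2) ∧ (C i).special.card ≤ r + 1 ∧
        ∀ j ∈ (C i).special, ((C i).ins j).card ≤ 1) ∧
      ∀ G, (f G → {i | (C i).fn (out i) G}.ncard = T + 1) ∧
        (¬ f G → {i | (C i).fn (out i) G}.ncard = T - 1) := by
  classical
  obtain ⟨S, C, out, g1, g2⟩ := upper_exact C₀ h1 out₀ hf hC hD hr hT
  have hT0 : 1 ≤ T := by
    rcases Nat.eq_zero_or_pos T with h | h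
    · rw [h, Nat.zero_mul] at hT
      omega
    · exact h
  have hcard : Fintype.card (Fin T × Bool) = 2 * T := by
    rw [Fintype.card_prod, Fintype.card_fin, Fintype.card_bool, mul_comm]
  let e : Fin (2 * T) ≃ Fin T × Bool := (Fintype.equivFinOfCardEq hcard).symm
  refine ⟨fun i => S (e i), fun i => C (e i), fun i => out (e i), fun i => g1 (e i), fun G => ?_⟩
  have e1 := nc_equiv e fun x => (C x).fn (out x) G
  rw [ncard_eq, e1, g2]
  constructor
  · intro h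
    rw [if_pos h]
    omega
  · intro h
    rw [if_neg h, Nat.add_zero]

end Pool.Agent.H49.AG
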