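import Pool.Agent.H49.AG.Design
import Pool.Agent.H25.NP.Dense
import Pool.Agent.H25.NM.Planted

/-!
The graphs of `Defs.lean` in terms of the block library.
-/

namespace Pool.Agent.H49.AG

open Finset
open Pool.Agent.H25.NM Pool.Agent.H25.NP

theorem back_eq {n q μ K w Q : ℕ} [NeZero Q] (hq : 0 < q) (hn : K * w * q ≤ n)
    (ω : Fin (q ^ 2) → Sym2 (Fin K × Fin w) → Fin Q) (j : ℕ) :
    back n q μ K w Q ω j = pre (blk hq μ hn) (gr (nz Q)) ω j := by
  ext x y
  constructor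
  · rintro ⟨hxy, i, hi, u, v, h1, h2, h3⟩
    refine ⟨i, hi, ?_⟩
    rw [SimpleGraph.map_adj]
    refine ⟨u, v, ⟨?_, ?_⟩, Fin.ext h2.symm, Fin.ext h3.symm⟩
    · rintro rfl
      exact hxy (Fin.ext (h2.trans h3.symm))
    · refine Finset.mem_filter.2 ⟨Finset.mem_univ _, fun h0 => h1 ?_⟩
      rw [h0]
      rfl
  · rintro ⟨i, hi, h⟩
    rw [SimpleGraph.map_adj] at h
    obtain ⟨u, v, ⟨huv, h1⟩, rfl, rfl⟩ := h
    refine ⟨fun h => huv ((blk hq μ hn i).injective h), i, hi, u, v, fun h0 => ?_, rfl, rfl⟩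
    exact (Finset.mem_filter.1 h1).2 (Fin.ext h0)

theorem clique_eq {n q μ K w : ℕ} (hq : 0 < q) (hn : K * w * q ≤ n) (j : Fin (q ^ 2))
    (p : Fin K → Fin w) : clique n q μ K w j p = (cq (tr p)).map (blk hq μ hn j) := by
  ext x y
  constructor
  · rintro ⟨hxy, a, b, h1, h2⟩
    rw [SimpleGraph.map_adj]
    refine ⟨(a, p a), (b, p b), ⟨?_, mem_tr.2 rfl, mem_tr.2 rfl⟩, Fin.ext h1.symm, Fin.ext h2.symm⟩
    intro h
    apply hxy
    apply Fin.ext
    rw [h1, h2, h]
  · intro h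
    rw [SimpleGraph.map_adj] at h
    obtain ⟨u, v, ⟨huv, hu, hv⟩, rfl, rfl⟩ := h
    refine ⟨fun h => huv ((blk hq μ hn j).injective h), u.1, v.1, ?_, ?_⟩
    · rw [mem_tr.1 hu]
      rfl
    · rw [mem_tr.1 hv]
      rfl

theorem pos_not_cliqueFree {n q μ K w Q : ℕ} (hq : 0 < q) (hn : K * w * q ≤ n)
    (z : Seed q K w Q) : ¬ (pos n q μ K w Q z).CliqueFree K := by
  unfold pos
  rw [clique_eq hq hn]
  exact planted_not_cliqueFree _ _ _

/-- Independent events. -/
theorem nc_edges {I ι : Type} [Fintype I] [DecidableEq I] (Q μ : ℕ) [NeZero Q] (E : Finset ι)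
    (P : ι → Finset I) (hP : ∀ e ∈ E, (P e).card ≤ μ)
    (hdisj : ∀ e ∈ E, ∀ f ∈ E, e ≠ f → Disjoint (P e) (P f)) :
    nc (fun x : I → Fin Q => ∀ e ∈ E, ∃ p ∈ P e, x p ∈ nz Q) * (Q ^ μ) ^ E.card ≤
      (Q ^ μ - 1) ^ E.card * Fintype.card (I → Fin Q) := by
  classical
  have hQ : 0 < Q := Nat.pos_of_ne_zero (NeZero.ne Q)
  induction E using Finset.induction_on with
  | empty =>
    rw [Finset.card_empty, pow_zero, pow_zero, one_mul, mul_one]
    exact nc_le_card _
  | insert a s ha ih =>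
    have ih' := ih (fun i hi => hP i (Finset.mem_insert_of_mem hi))
      fun i hi j hj => hdisj i (Finset.mem_insert_of_mem hi) j (Finset.mem_insert_of_mem hj)
    -- one edge
    have h1 : nc (fun x : I → Fin Q => ∃ p ∈ P a, x p ∈ nz Q) * Q ^ μ ≤
        (Q ^ μ - 1) * Fintype.card (I → Fin Q) := by
      have g1 := nc_add_nc_not fun x : I → Fin Q => ∃ p ∈ P a, x p ∈ nz Q
      have g2 : nc (fun x : I → Fin Q => ¬ ∃ p ∈ P a, x p ∈ nz Q) =
          nc (fun x : I → Fin Q => ∀ p ∈ P a, x p = (0 : Fin Q)) := by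
        refine nc_congr fun x => ?_
        push Not
        refine forall₂_congr fun p _ => ?_
        unfold nz
        rw [Finset.mem_filter]
        simp
      have g3 := nc_forall_eq (A := Fin Q) (P a) fun _ => 0
      rw [Fintype.card_fin, ← g2] at g3
      have g4 : Fintype.card (I → Fin Q) ≤
          nc (fun x : I → Fin Q => ¬ ∃ p ∈ P a, x p ∈ nz Q) * Q ^ μ := by
        calc Fintype.card (I → Fin Q) = Q ^ Fintype.card I := by
              rw [Fintype.card_fun, Fintype.card_fin]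
          _ = nc (fun x : I → Fin Q => ¬ ∃ p ∈ P a, x p ∈ nz Q) * Q ^ (P a).card := g3.symm
          _ ≤ _ := Nat.mul_le_mul_left _
              (Nat.pow_le_pow_right hQ (hP a (Finset.mem_insert_self _ _)))
      rw [Nat.sub_mul, one_mul]
      apply Nat.le_sub_of_add_le
      calc nc (fun x : I → Fin Q => ∃ p ∈ P a, x p ∈ nz Q) * Q ^ μ + Fintype.card (I → Fin Q)
          ≤ nc (fun x : I → Fin Q => ∃ p ∈ P a, x p ∈ nz Q) * Q ^ μ +
            nc (fun x : I → Fin Q => ¬ ∃ p ∈ P a, x p ∈ nz Q) * Q ^ μ := Nat.add_le_add_left g4 _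
        _ = Q ^ μ * Fintype.card (I → Fin Q) := by rw [← add_mul, g1, mul_comm]
    have h2 := card_inter_mul (P a)
      (fun x : I → Fin Q => ∃ p ∈ P a, x p ∈ nz Q)
      (fun x : I → Fin Q => ∀ e ∈ s, ∃ p ∈ P e, x p ∈ nz Q)
      (by
        intro x y hxy
        constructor
        · rintro ⟨e, he, h⟩
          exact ⟨e, he, by rw [← hxy e he]; exact h⟩
        · rintro ⟨e, he, h⟩
          exact ⟨e, he, by rw [hxy e he]; exact h⟩)
      (by
        intro x y hxy
        have hne : ∀ i ∈ s, ∀ e ∈ P i, e ∉ P a := by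
          intro i hi e he he'
          have hd := hdisj i (Finset.mem_insert_of_mem hi) a (Finset.mem_insert_self _ _)
            (by
              rintro rfl
              exact ha hi)
          exact Finset.disjoint_left.1 hd he he'
        constructor
        · intro h i hi
          obtain ⟨e, he, h'⟩ := h i hi
          exact ⟨e, he, by rw [← hxy e (hne i hi e he)]; exact h'⟩
        · intro h i hi
          obtain ⟨e, he, h'⟩ := h i hi
          exact ⟨e, he, by rw [hxy e (hne i hi e he)]; exact h'⟩)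
    rw [← nc_eq, ← nc_eq, ← nc_eq] at h2
    have h3 : nc (fun x : I → Fin Q => ∀ e ∈ insert a s, ∃ p ∈ P e, x p ∈ nz Q) =
        nc (fun x : I → Fin Q => (∃ p ∈ P a, x p ∈ nz Q) ∧
          ∀ e ∈ s, ∃ p ∈ P e, x p ∈ nz Q) := by
      refine nc_congr fun ω => ?_
      rw [Finset.forall_mem_insert]
    rw [h3, Finset.card_insert_of_notMem ha]
    have hK : 0 < Fintype.card (I → Fin Q) := Fintype.card_pos
    refine Nat.le_of_mul_le_mul_right ?_ hK
    set M := Fintype.card (I → Fin Q)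
    set a1 := nc (fun x : I → Fin Q => (∃ p ∈ P a, x p ∈ nz Q) ∧
          ∀ e ∈ s, ∃ p ∈ P e, x p ∈ nz Q)
    set a2 := nc (fun x : I → Fin Q => ∃ p ∈ P a, x p ∈ nz Q)
    set a3 := nc (fun x : I → Fin Q => ∀ e ∈ s, ∃ p ∈ P e, x p ∈ nz Q)
    calc a1 * (Q ^ μ) ^ (s.card + 1) * M = (a1 * M) * (Q ^ μ) ^ (s.card + 1) := by ring
      _ = (a2 * a3) * (Q ^ μ) ^ (s.card + 1) := by rw [h2]
      _ = (a2 * Q ^ μ) * (a3 * (Q ^ μ) ^ s.card) := by ring
      _ ≤ ((Q ^ μ - 1) * M) * ((Q ^ μ - 1) ^ s.card * M) := Nat.mul_le_mul h1 ih'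
      _ = (Q ^ μ - 1) ^ (s.card + 1) * M * M := by ring

end Pool.Agent.H49.AG
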