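import Pool.Agent.H49.AG.Core

/-!
The lower bound: the test graphs, chains of graphs, few special gates, levels, quantifiers.
-/

namespace Pool.Agent.H49.AG

open Finset
open Pool.Agent.H25.NM Pool.Agent.H25.NP

theorem pos_clique {n q μ K w Q d : ℕ} (hq : 0 < q) (hn : K * w * q + d ≤ n)
    (z : Seed q K w Q) : ¬ (cone d (pos n q μ K w Q z)).CliqueFree (K + d) := by
  classical
  have hn' : K * w * q ≤ n := by omega
  refine cone_not_cliqueFree (S := (tr z.2.1).map (blk hq μ hn' z.1)) (by omega) ⟨?_, ?_⟩ ?_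
  · intro x hx y hy hxy
    rw [Finset.mem_coe, Finset.mem_map] at hx hy
    obtain ⟨u, hu, rfl⟩ := hx
    obtain ⟨v, hv, rfl⟩ := hy
    refine Or.inr ?_
    rw [clique_eq hq hn', SimpleGraph.map_adj]
    exact ⟨u, v, ⟨fun huv => hxy (by rw [huv]), hu, hv⟩, rfl, rfl⟩
  · rw [Finset.card_map, card_tr]
  · intro x hx
    obtain ⟨u, _, rfl⟩ := Finset.mem_map.1 hx
    have := vtx_lt hq μ z.1 (n := K * w * q) le_rfl u
    show vtx q μ z.1 u + d < n
    omega

theorem neg_clique {n q μ K w Q d L s : ℕ} (hq : q.Prime) (hQ : 1 ≤ Q) (hnL : n ≤ 2 ^ L)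
    (hv : K * w ≤ q ^ μ) (hn : K * w * q + d ≤ n) (hs : 2 * Q ^ μ * (L + 1) < s) :
    2 ^ s * nc (fun z : Seed q K w Q => ¬ (cone d (neg n q μ K w Q z)).CliqueFree (s + d)) ≤
      Fintype.card (Seed q K w Q) := by
  classical
  have hn' : K * w * q ≤ n := by omega
  have : NeZero Q := ⟨by omega⟩
  set X := nc (fun ω : Fin (q ^ 2) → (Sym2 (Fin K × Fin w) → Fin Q) =>
    ¬ (pre (blk hq.pos μ hn') (gr (nz Q)) ω (q ^ 2)).CliqueFree s) with hX
  have h1 : nc (fun z : Seed q K w Q => ¬ (cone d (neg n q μ K w Q z)).CliqueFree (s + d)) ≤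
      q ^ 2 * (Fintype.card (Fin K → Fin w) * X) := by
    have e1 : q ^ 2 * (Fintype.card (Fin K → Fin w) * X) =
        nc (fun z : Fin (q ^ 2) × ((Fin K → Fin w) ×
          (Fin (q ^ 2) → (Sym2 (Fin K × Fin w) → Fin Q))) => True ∧ (True ∧
            ¬ (pre (blk hq.pos μ hn') (gr (nz Q)) z.2.2 (q ^ 2)).CliqueFree s)) := by
      rw [nc_prod_and (fun _ : Fin (q ^ 2) => True)
        fun x : (Fin K → Fin w) × (Fin (q ^ 2) → (Sym2 (Fin K × Fin w) → Fin Q)) => True ∧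
            ¬ (pre (blk hq.pos μ hn') (gr (nz Q)) x.2 (q ^ 2)).CliqueFree s,
        nc_prod_and (fun _ : Fin K → Fin w => True)
        fun ω : Fin (q ^ 2) → (Sym2 (Fin K × Fin w) → Fin Q) =>
            ¬ (pre (blk hq.pos μ hn') (gr (nz Q)) ω (q ^ 2)).CliqueFree s,
        nc_true fun _ => trivial, nc_true fun _ => trivial, Fintype.card_fin]
    rw [e1]
    refine nc_mono fun z hz => ⟨trivial, trivial, fun hfree => hz ?_⟩
    refine cliqueFree_cone (hfree.anti ?_)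
    unfold neg
    rw [back_eq hq.pos hn']
    exact pre_mono _ z.1.2
  have h2 := nc_not_cliqueFree_le (Q := Q) (blk hq.pos μ hn') μ (positions_le hq hv hn') s
  have h3 := count (Q := Q ^ μ) (Nat.one_le_pow _ _ hQ) hnL hs
  set M := Fintype.card (Fin (q ^ 2) → (Sym2 (Fin K × Fin w) → Fin Q)) with hM
  have h4 : 2 ^ s * X ≤ M := by
    have g2 : 0 < (Q ^ μ) ^ (s.choose 2) := by positivity
    refine Nat.le_of_mul_le_mul_left ?_ g2
    calc (Q ^ μ) ^ (s.choose 2) * (2 ^ s * X) = 2 ^ s * (X * (Q ^ μ) ^ (s.choose 2)) := by ring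
      _ ≤ 2 ^ s * (n.choose s * ((Q ^ μ - 1) ^ (s.choose 2) * M)) := Nat.mul_le_mul_left _ h2
      _ ≤ 2 ^ s * (n ^ s * ((Q ^ μ - 1) ^ (s.choose 2) * M)) :=
          Nat.mul_le_mul_left _ (Nat.mul_le_mul_right _ (Nat.choose_le_pow n s))
      _ = (2 ^ s * (n ^ s * (Q ^ μ - 1) ^ (s.choose 2))) * M := by ring
      _ ≤ (Q ^ μ) ^ (s.choose 2) * M := Nat.mul_le_mul_right _ h3
  calc 2 ^ s * nc (fun z : Seed q K w Q => ¬ (cone d (neg n q μ K w Q z)).CliqueFree (s + d))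
      ≤ 2 ^ s * (q ^ 2 * (Fintype.card (Fin K → Fin w) * X)) := Nat.mul_le_mul_left _ h1
    _ = q ^ 2 * (Fintype.card (Fin K → Fin w) * (2 ^ s * X)) := by ring
    _ ≤ q ^ 2 * (Fintype.card (Fin K → Fin w) * M) :=
        Nat.mul_le_mul_left _ (Nat.mul_le_mul_left _ h4)
    _ = _ := by
        rw [Fintype.card_prod, Fintype.card_prod, Fintype.card_fin]

/-- Many changes of the watched gates along a chain. -/
theorem core_exists {n q μ K w Q d l L S : ℕ} (hq : q.Prime) (hK : 1 ≤ K) (hL : 1 ≤ L)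
    (hLl : L ≤ l) (hnL : n ≤ 2 ^ L) (hw : w = 512 * l ^ 2 * L) (hQ : Q = 4 * l ^ 2)
    (hn : K * w * q + d ≤ n) (hS : S ≤ 2 ^ l) (C : Circuit n S) (out : Fin S) :
    ∃ A : ℕ, q ^ 2 * nc (fun z : Seed q K w Q => ¬ (C.fn out (cone d (pos n q μ K w Q z)) ↔
      C.fn out (cone d (neg n q μ K w Q z)))) ≤ (4 * A + 3) * Fintype.card (Seed q K w Q) ∧
      ∃ y : ℕ → SimpleGraph (Fin n), Monotone y ∧
        ∀ a < A, ∃ i ∈ C.watched, ¬ (C.fn i (y a) ↔ C.fn i (y (a + 1))) := by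
  classical
  set N := nc (fun z : Seed q K w Q => ¬ (C.fn out (cone d (pos n q μ K w Q z)) ↔
      C.fn out (cone d (neg n q μ K w Q z)))) with hN
  set X := Fintype.card (Seed q K w Q) with hX
  have hex : ∃ B : ℕ, q ^ 2 * N ≤ (4 * B + 3) * X := by
    refine ⟨q ^ 2, ?_⟩
    have h1 : N ≤ X := nc_le_card _
    calc q ^ 2 * N ≤ q ^ 2 * X := Nat.mul_le_mul_left _ h1
      _ ≤ (4 * q ^ 2 + 3) * X := Nat.mul_le_mul_right _ (by omega)
  refine ⟨Nat.find hex, Nat.find_spec hex, ?_⟩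
  rcases Nat.eq_zero_or_pos (Nat.find hex) with h0 | h0
  · refine ⟨fun _ => ⊥, fun _ _ _ => le_rfl, fun a ha => ?_⟩
    omega
  · obtain ⟨B, hB⟩ : ∃ B, Nat.find hex = B + 1 := ⟨Nat.find hex - 1, by omega⟩
    have hmin := Nat.find_min hex (show B < Nat.find hex by omega)
    have hno : ¬ ∀ y : ℕ → SimpleGraph (Fin n), Monotone y → ∀ T : ℕ,
        nc (fun j : Fin T => ∃ i ∈ C.watched, ¬ (C.fn i (y j) ↔ C.fn i (y (j + 1)))) ≤ B :=
      fun hall => hmin (core hq hK hL hLl hnL hw hQ hn hS C out hall)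
    rw [not_forall] at hno
    obtain ⟨x, hno⟩ := hno
    rw [Classical.not_imp, not_forall] at hno
    obtain ⟨hx, T, hT⟩ := hno
    rw [not_le] at hT
    rw [nc_fin_eq T fun j => ∃ i ∈ C.watched, ¬ (C.fn i (x j) ↔ C.fn i (x (j + 1)))] at hT
    obtain ⟨g, hg, _, _, hg3⟩ := exists_subchain C C.watched x
      (fun J => @Finset.filter _ (fun j => ∃ i ∈ C.watched,
        ¬ (C.fn i (x j) ↔ C.fn i (x (j + 1)))) (Classical.decPred _) (range J))
      (fun J => rfl) T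
    refine ⟨fun a => x (g a), fun a b hab => hx (hg hab), fun a ha => hg3 a ?_⟩
    omega

/-- The steps of a chain at which a watched gate changes its value. -/
theorem card_changes {n s : ℕ} (C : Circuit n s) {r t A : ℕ} (hr : C.special.card ≤ r)
    (ht : ∀ i ∈ C.special, (C.ins i).card ≤ t) {y : ℕ → SimpleGraph (Fin n)} (hy : Monotone y) :
    (@Finset.filter _ (fun a => ∃ i ∈ C.watched, ¬ (C.fn i (y a) ↔ C.fn i (y (a + 1))))
      (Classical.decPred _) (range A)).card ≤ t * (2 ^ r - 1) := by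
  obtain ⟨g, hg, _, _, hg3⟩ := exists_subchain C C.watched y
    (fun J => @Finset.filter _ (fun j => ∃ i ∈ C.watched,
      ¬ (C.fn i (y j) ↔ C.fn i (y (j + 1)))) (Classical.decPred _) (range J))
    (fun J => rfl) A
  exact changes_le_few C hr ht (y := fun a => y (g a)) (fun a b hab => hy (hg hab)) hg3

/-- Quantified circuits with few special gates. -/
theorem core_quant {n q μ K w Q d l L S h r t : ℕ} (hq : q.Prime) (hK : 1 ≤ K) (hL : 1 ≤ L)
    (hLl : L ≤ l) (hnL : n ≤ 2 ^ L) (hw : w = 512 * l ^ 2 * L) (hQ : Q = 4 * l ^ 2)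
    (hn : K * w * q + d ≤ n) (hS : 2 ^ h * (S + 1) ≤ 2 ^ l) (Qf : Fin h → Bool)
    (C : (Fin h → Bool) → Circuit n S) (out : (Fin h → Bool) → Fin S)
    (ht0 : 1 ≤ t)
    (hr : ∀ y, (C y).special.card ≤ r) (ht : ∀ y, ∀ i ∈ (C y).special, ((C y).ins i).card ≤ t) :
    q ^ 2 * nc (fun z : Seed q K w Q =>
      ¬ (Quantified h Qf (fun y => (C y).fn (out y) (cone d (pos n q μ K w Q z))) ↔
        Quantified h Qf (fun y => (C y).fn (out y) (cone d (neg n q μ K w Q z))))) ≤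
      4 * (t * 2 ^ (h + r)) * Fintype.card (Seed q K w Q) := by
  classical
  obtain ⟨N, C', o, h1, h2, h3⟩ := quant_circuit h Qf C out
  obtain ⟨A, hA, y, hy, hAy⟩ := core_exists (μ := μ) hq hK hL hLl hnL hw hQ hn
    (show N ≤ 2 ^ l by omega) C' o
  have h5 : nc (fun z : Seed q K w Q =>
      ¬ (Quantified h Qf (fun y => (C y).fn (out y) (cone d (pos n q μ K w Q z))) ↔
        Quantified h Qf (fun y => (C y).fn (out y) (cone d (neg n q μ K w Q z))))) =
      nc (fun z : Seed q K w Q => ¬ (C'.fn o (cone d (pos n q μ K w Q z)) ↔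
        C'.fn o (cone d (neg n q μ K w Q z)))) := nc_congr fun z => by rw [h2, h2]
  rw [h5]
  refine hA.trans (Nat.mul_le_mul_right _ ?_)
  suffices hAt : A + 1 ≤ t * 2 ^ (h + r) by omega
  let D : (Fin h → Bool) → Finset ℕ := fun z => @Finset.filter _ (fun a => ∃ i ∈ (C z).watched,
    ¬ ((C z).fn i (y a) ↔ (C z).fn i (y (a + 1)))) (Classical.decPred _) (range A)
  have hD : range A ⊆ (univ : Finset (Fin h → Bool)).biUnion D := by
    intro a ha
    obtain ⟨w, hw, hne⟩ := hAy a (Finset.mem_range.1 ha)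
    obtain ⟨z, i, hi, h4⟩ := h3 w hw
    rw [h4] at hne
    exact Finset.mem_biUnion.2 ⟨z, Finset.mem_univ _,
      (@Finset.mem_filter _ _ (Classical.decPred _) _ _).2 ⟨ha, i, hi, hne⟩⟩
  have hA1 : A ≤ 2 ^ h * (t * (2 ^ r - 1)) := by
    calc A = (range A).card := (Finset.card_range A).symm
      _ ≤ ((univ : Finset (Fin h → Bool)).biUnion D).card := Finset.card_le_card hD
      _ ≤ ∑ z : Fin h → Bool, (D z).card := Finset.card_biUnion_le
      _ ≤ ∑ _z : Fin h → Bool, t * (2 ^ r - 1) := Finset.sum_le_sum fun z _ =>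
          card_changes (C z) (hr z) (ht z) hy
      _ = 2 ^ h * (t * (2 ^ r - 1)) := by
          rw [Finset.sum_const, Finset.card_univ, Fintype.card_fun, Fintype.card_bool,
            Fintype.card_fin, smul_eq_mul]
  have h6 : 1 ≤ 2 ^ h * t := Nat.mul_pos (by positivity) ht0
  obtain ⟨R, hR⟩ : ∃ R, 2 ^ r = R + 1 := ⟨2 ^ r - 1, by
    have : 0 < 2 ^ r := by positivity
    omega⟩
  rw [hR, Nat.add_sub_cancel] at hA1
  calc A + 1 ≤ 2 ^ h * (t * R) + 2 ^ h * t := by omega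
    _ = t * (2 ^ h * (R + 1)) := by ring
    _ = t * 2 ^ (h + r) := by rw [← hR, pow_add]

end Pool.Agent.H49.AG
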