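import Pool.Agent.H49.AG.Rand
import Pool.Agent.H25.NM.Clique

/-!
Random maps: the gap form of the randomised circuits.
-/

set_option linter.unusedSectionVars false

namespace Pool.Agent.H49.AG

open Finset
open Pool.Agent.H25.NP
open Pool.Agent.H25.NM (nc nc_eq nc_mono nc_congr nc_or_le nc_le_card nc_add_nc_not nc_false
  nc_true nc_prod nc_bex_le nc_mem nc_forall_mem_gen)

/-- Pulling a circuit back along a map. -/
theorem circuit_pull {n m S : ℕ} (C : Circuit m S) (σ : Fin m → Fin n) :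
    ∃ C' : Circuit n S, C'.special = C.special ∧ C'.ins = C.ins ∧
      ∀ i G, C'.fn i G ↔ C.fn i (G.comap σ) :=
  ⟨{ fn := fun i G => C.fn i (G.comap σ)
     ins := C.ins
     special := C.special
     lt := C.lt
     gate := fun i => by
      rcases C.gate i with ⟨u, v, h⟩ | h | h | ⟨h, h'⟩
      · exact Or.inl ⟨σ u, σ v, fun G => (h _).trans (by rw [SimpleGraph.comap_adj])⟩
      · exact Or.inr (Or.inl fun G => h _)
      · exact Or.inr (Or.inr (Or.inl fun G => h _))
      · exact Or.inr (Or.inr (Or.inr ⟨h, fun G H hGH => h' _ _ hGH⟩)) },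
    rfl, rfl, fun _ _ => Iff.rfl⟩

/-- Pulling back creates no clique. -/
theorem cliqueFree_pull {n m s : ℕ} {G : SimpleGraph (Fin n)} (h : G.CliqueFree s)
    (σ : Fin m → Fin n) : (G.comap σ).CliqueFree s := by
  classical
  intro T hT
  refine h (T.image σ) ⟨?_, ?_⟩
  · intro x hx y hy hxy
    rw [Finset.mem_coe, Finset.mem_image] at hx hy
    obtain ⟨u, hu, rfl⟩ := hx
    obtain ⟨v, hv, rfl⟩ := hy
    have := hT.isClique (Finset.mem_coe.2 hu) (Finset.mem_coe.2 hv) fun h => hxy (by rw [h])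
    rwa [SimpleGraph.comap_adj] at this
  · rw [Finset.card_image_of_injOn, hT.card_eq]
    intro u hu v hv huv
    by_contra hne
    have := hT.isClique hu hv hne
    rw [SimpleGraph.comap_adj, huv] at this
    exact this.ne rfl

/-- Most maps pull a large clique back to a clique. -/
theorem maps_good {n s g k' K : ℕ} {G : SimpleGraph (Fin n)} (hK : ¬ G.CliqueFree K)
    (hk' : s * k' ≤ K) (hnum : 4 * s * (n - k') ^ g ≤ n ^ g) (hn : 0 < n) :
    4 * nc (fun σ : Fin (s * g) → Fin n => (G.comap σ).CliqueFree s) ≤ n ^ (s * g) := by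
  classical
  unfold SimpleGraph.CliqueFree at hK
  push Not at hK
  obtain ⟨Q, hQ⟩ := hK
  -- disjoint parts of the clique
  let θ : Fin s × Fin k' → Fin n := fun x =>
    Q.orderEmbOfFin hQ.card_eq (Fin.castLE hk' (finProdFinEquiv x))
  have hθ : Function.Injective θ := fun x y h =>
    finProdFinEquiv.injective (Fin.castLE_injective hk' ((Q.orderEmbOfFin hQ.card_eq).injective h))
  have hθQ : ∀ x, θ x ∈ Q := fun x => Finset.orderEmbOfFin_mem _ _ _
  let P : Fin s → Finset (Fin n) := fun i => univ.image fun j => θ (i, j)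
  have hP : ∀ i, (P i).card = k' := by
    intro i
    show (univ.image fun j => θ (i, j)).card = k'
    rw [Finset.card_image_of_injective, Finset.card_univ, Fintype.card_fin]
    intro a b hab
    exact (Prod.ext_iff.1 (hθ hab)).2
  -- the bad maps
  have h1 : nc (fun σ : Fin (s * g) → Fin n => (G.comap σ).CliqueFree s) ≤
      ∑ i : Fin s, nc (fun σ : Fin (s * g) → Fin n =>
        ∀ v ∈ univ.image (fun j : Fin g => finProdFinEquiv (i, j)), σ v ∈ (P i)ᶜ) := by
    refine le_trans (nc_mono fun σ hσ => ?_) (nc_bex_le (univ : Finset (Fin s)) fun i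
      (σ : Fin (s * g) → Fin n) =>
        ∀ v ∈ univ.image (fun j : Fin g => finProdFinEquiv (i, j)), σ v ∈ (P i)ᶜ)
    by_contra hcon
    push Not at hcon
    have hex : ∀ i : Fin s, ∃ j : Fin g, σ (finProdFinEquiv (i, j)) ∈ P i := by
      intro i
      obtain ⟨v, hv, hv'⟩ := hcon i (Finset.mem_univ _)
      obtain ⟨j, _, rfl⟩ := Finset.mem_image.1 hv
      refine ⟨j, ?_⟩
      rwa [Finset.mem_compl, not_not] at hv'
    choose j hj using hex
    have hj' : ∀ i, ∃ b, θ (i, b) = σ (finProdFinEquiv (i, j i)) := by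
      intro i
      obtain ⟨b, _, hb⟩ := Finset.mem_image.1 (hj i)
      exact ⟨b, hb⟩
    choose b hb using hj'
    have hne : ∀ i i', i ≠ i' → σ (finProdFinEquiv (i, j i)) ≠ σ (finProdFinEquiv (i', j i')) := by
      intro i i' hii h
      rw [← hb i, ← hb i'] at h
      exact hii (Prod.ext_iff.1 (hθ h)).1
    refine hσ (univ.image fun i : Fin s => (finProdFinEquiv (i, j i) : Fin (s * g))) ⟨?_, ?_⟩
    · intro x hx y hy hxy
      rw [Finset.mem_coe, Finset.mem_image] at hx hy
      obtain ⟨i, _, rfl⟩ := hx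
      obtain ⟨i', _, rfl⟩ := hy
      have hii : i ≠ i' := fun h => hxy (by rw [h])
      rw [SimpleGraph.comap_adj]
      refine hQ.isClique ?_ ?_ (hne i i' hii)
      · rw [← hb i]
        exact hθQ _
      · rw [← hb i']
        exact hθQ _
    · rw [Finset.card_image_of_injective, Finset.card_univ, Fintype.card_fin]
      intro i i' h
      exact (Prod.ext_iff.1 (finProdFinEquiv.injective h)).1
  have h2 : ∀ i : Fin s, 4 * s * nc (fun σ : Fin (s * g) → Fin n =>
        ∀ v ∈ univ.image (fun j : Fin g => finProdFinEquiv (i, j)), σ v ∈ (P i)ᶜ) ≤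
      n ^ (s * g) := by
    intro i
    have h3 := nc_forall_mem_gen (univ.image (fun j : Fin g => finProdFinEquiv (i, j)))
      fun _ : Fin (s * g) => (P i)ᶜ
    have h4 : (univ.image (fun j : Fin g => finProdFinEquiv (i, j))).card = g := by
      rw [Finset.card_image_of_injective, Finset.card_univ, Fintype.card_fin]
      intro a b hab
      exact (Prod.ext_iff.1 (finProdFinEquiv.injective hab)).2
    rw [Finset.prod_const, h4, Fintype.card_fin, Fintype.card_fin, Finset.card_compl, hP,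
      Fintype.card_fin] at h3
    have hng : 0 < n ^ g := by positivity
    refine Nat.le_of_mul_le_mul_right ?_ hng
    calc 4 * s * nc (fun σ : Fin (s * g) → Fin n =>
        ∀ v ∈ univ.image (fun j : Fin g => finProdFinEquiv (i, j)), σ v ∈ (P i)ᶜ) * n ^ g
        = 4 * s * (nc (fun σ : Fin (s * g) → Fin n =>
        ∀ v ∈ univ.image (fun j : Fin g => finProdFinEquiv (i, j)), σ v ∈ (P i)ᶜ) * n ^ g) := by
          ring
      _ = 4 * s * (n - k') ^ g * n ^ (s * g) := by rw [h3]; ring
      _ ≤ n ^ g * n ^ (s * g) := Nat.mul_le_mul_right _ hnum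
      _ = n ^ (s * g) * n ^ g := mul_comm _ _
  rcases Nat.eq_zero_or_pos s with hs | hs
  · subst hs
    have h5 : nc (fun σ : Fin (0 * g) → Fin n => (G.comap σ).CliqueFree 0) = 0 := by
      refine Nat.eq_zero_of_le_zero (h1.trans (le_of_eq ?_))
      simp
    rw [h5]
    exact Nat.zero_le _
  · refine Nat.le_of_mul_le_mul_left ?_ hs
    calc s * (4 * nc (fun σ : Fin (s * g) → Fin n => (G.comap σ).CliqueFree s))
        ≤ s * (4 * ∑ i : Fin s, nc (fun σ : Fin (s * g) → Fin n =>
        ∀ v ∈ univ.image (fun j : Fin g => finProdFinEquiv (i, j)), σ v ∈ (P i)ᶜ)) :=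
          Nat.mul_le_mul_left _ (Nat.mul_le_mul_left _ h1)
      _ = ∑ i : Fin s, 4 * s * nc (fun σ : Fin (s * g) → Fin n =>
        ∀ v ∈ univ.image (fun j : Fin g => finProdFinEquiv (i, j)), σ v ∈ (P i)ᶜ) := by
          rw [Finset.mul_sum, Finset.mul_sum]
          refine Finset.sum_congr rfl fun i _ => ?_
          ring
      _ ≤ ∑ _i : Fin s, n ^ (s * g) := Finset.sum_le_sum fun i _ => h2 i
      _ = s * n ^ (s * g) := by
          rw [Finset.sum_const, Finset.card_univ, Fintype.card_fin, smul_eq_mul]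

/-- The numbers. -/
theorem maps_num {n s g k' t : ℕ} (hn : 0 < n) (hk : k' ≤ n) (hs : 4 * s ≤ 2 ^ t)
    (hg : n * t ≤ g * k') : 4 * s * (n - k') ^ g ≤ n ^ g := by
  have h1 : 2 ^ t * (n - k') ^ g ≤ n ^ g := by
    have hnR : (0 : ℝ) < n := by exact_mod_cast hn
    have e1 : ((n - k' : ℕ) : ℝ) = n - k' := by
      rw [Nat.cast_sub hk]
    have e2 : ((n : ℝ) - k') ≤ n * Real.exp (-(k' / n)) := by
      have h := Real.one_sub_le_exp_neg ((k' : ℝ) / n)
      have h2 := mul_le_mul_of_nonneg_left h hnR.le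
      have h3 : (n : ℝ) * (1 - k' / n) = n - k' := by
        field_simp
      linarith
    have e3 : (0 : ℝ) ≤ (n : ℝ) - k' := by
      have : (k' : ℝ) ≤ n := by exact_mod_cast hk
      linarith
    have e4 : ((n : ℝ) - k') ^ g ≤ n ^ g * Real.exp (-(g * (k' / n))) := by
      calc ((n : ℝ) - k') ^ g ≤ (n * Real.exp (-(k' / n))) ^ g := pow_le_pow_left₀ e3 e2 g
        _ = n ^ g * Real.exp (-(g * (k' / n))) := by
          rw [mul_pow, ← Real.exp_nat_mul]
          congr 2
          ring
    have e5 : Real.exp (-(g * (k' / n) : ℝ)) ≤ Real.exp (-(t : ℝ)) := by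
      rw [Real.exp_le_exp]
      have h : (n : ℝ) * t ≤ g * k' := by exact_mod_cast hg
      have h2 : (t : ℝ) ≤ g * (k' / n) := by
        rw [← mul_div_assoc, le_div_iff₀ hnR]
        linarith
      linarith
    have e6 : (2 : ℝ) ^ t * Real.exp (-(t : ℝ)) ≤ 1 := by
      have h : (2 : ℝ) ≤ Real.exp 1 := by
        have := Real.add_one_le_exp (1 : ℝ)
        linarith
      have h2 : (2 : ℝ) ^ t ≤ Real.exp t := by
        calc (2 : ℝ) ^ t ≤ Real.exp 1 ^ t := pow_le_pow_left₀ (by norm_num) h t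
          _ = Real.exp t := by rw [← Real.exp_nat_mul, mul_one]
      calc (2 : ℝ) ^ t * Real.exp (-(t : ℝ)) ≤ Real.exp t * Real.exp (-(t : ℝ)) :=
            mul_le_mul_of_nonneg_right h2 (Real.exp_pos _).le
        _ = 1 := by rw [← Real.exp_add]; simp
    have e7 : (2 : ℝ) ^ t * ((n - k' : ℕ) : ℝ) ^ g ≤ n ^ g := by
      rw [e1]
      have hng : (0 : ℝ) ≤ (n : ℝ) ^ g := by positivity
      calc (2 : ℝ) ^ t * ((n : ℝ) - k') ^ g
          ≤ 2 ^ t * (n ^ g * Real.exp (-(g * (k' / n)))) :=
            mul_le_mul_of_nonneg_left e4 (by positivity)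
        _ ≤ 2 ^ t * (n ^ g * Real.exp (-(t : ℝ))) :=
            mul_le_mul_of_nonneg_left (mul_le_mul_of_nonneg_left e5 hng) (by positivity)
        _ = n ^ g * (2 ^ t * Real.exp (-(t : ℝ))) := by ring
        _ ≤ n ^ g * 1 := mul_le_mul_of_nonneg_left e6 hng
        _ = n ^ g := mul_one _
    exact_mod_cast e7
  exact (Nat.mul_le_mul_right _ hs).trans h1

end Pool.Agent.H49.AG
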