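import Pool.Agent.H49.AG.Block
import Pool.Agent.H25.NM.Nc

/-!
A randomised circuit with few negations: every monotone property is computed with a small
advantage.
-/

set_option linter.unusedSectionVars false

namespace Pool.Agent.H49.AG

open Finset
open Pool.Agent.H25.NP
open Pool.Agent.H25.NM (nc nc_eq nc_mono nc_congr nc_or_le nc_le_card nc_add_nc_not nc_false
  nc_true nc_prod nc_bex_le nc_mem)

/-- One block. -/
theorem circuit_block {n S₀ : ℕ} (C : Circuit n S₀) (h1 : ∀ i ∈ C.special, (C.ins i).card ≤ 1)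
    (out : Fin S₀) {f : SimpleGraph (Fin n) → Prop} (hf : ∀ G H, G ≤ H → f G → f H)
    (hC : (∀ G, C.fn out G ↔ f G) ∨ (∀ G, C.fn out G ↔ ¬ f G))
    {D p M : ℕ} (hD : 1 ≤ D) (w₀ : ℕ) (hp : M + 1 < 2 ^ p) (hMN : M ≤ n.choose 2 + 1)
    (up : Bool) :
    ∃ (s' : ℕ) (C' : Circuit n s') (out' : Fin s'),
      s' ≤ 16 * (D * (2 * S₀ + 1) * (n.choose 2 + 1) ^ (D + 2)) + 4 * 2 ^ p ∧
      C'.special.card ≤ p ∧ (∀ i ∈ C'.special, (C'.ins i).card ≤ 1) ∧
      ∀ G, C'.fn out' G ↔ (if up then (w₀ * D ≤ (toSet G).card ∧ f G) ∨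
        (w₀ + M) * D ≤ (toSet G).card else (toSet G).card < w₀ * D ∨
        ((toSet G).card < (w₀ + M) * D ∧ f G)) := by
  classical
  obtain ⟨l, g1, g2, g3⟩ := C.dual h1 S₀ le_rfl
  obtain ⟨c, hc1, hc2⟩ : ∃ c ∈ l, ∀ X, c (lits X) ↔ f (ofSet X) := by
    obtain ⟨⟨p, hp, hp'⟩, ⟨q, hq, hq'⟩⟩ := g3 out out.2
    rcases hC with hC | hC
    · exact ⟨p, hp, fun X => (hp' X).trans (hC _)⟩
    · refine ⟨q, hq, fun X => (hq' X).trans ?_⟩
      rw [hC]
      exact not_not
  have hcm : ∀ Y Y', Y ⊆ Y' → c Y → c Y' := fun Y Y' hY =>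
    g1.mono rfl (by
      rintro g ⟨k, rfl⟩ x y hxy hx
      exact hxy hx) c hc1 Y Y' hY
  have hcomp : Comp (Inp (Edge n ⊕ Edge n)) {c} (2 * S₀) 0 := by
    refine ⟨l, g1, ?_, g2⟩
    rintro f' hf'
    rw [Set.mem_singleton_iff] at hf'
    rw [hf']
    exact hc1
  obtain ⟨l', k1, k2, k3⟩ := block_comp hcomp hcm (f := fun X => f (ofSet X))
    (fun X Y hXY => hf _ _ (ofSet_mono hXY)) hc2 hD w₀ hp (by rw [card_Edge]; exact hMN) up
  have k4 := k1.comap (Base' := Adj n) (toSet (n := n)) (by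
    rintro g ⟨i, rfl⟩
    obtain ⟨e, he⟩ := i
    induction e using Sym2.ind with
    | _ u v =>
      refine ⟨u, v, ?_⟩
      funext G
      show (_ ∈ toSet G) = _
      rw [mem_toSet]
      rfl)
  obtain ⟨C', m1, m2, m3⟩ := k4.toCircuit
  obtain ⟨out', hout⟩ := m3 _ (List.mem_map_of_mem (f := fun g => fun x => g (toSet x))
    (k2 _ rfl))
  refine ⟨_, C', out', ?_, m1, m2, fun G => ?_⟩
  · rw [List.length_map]
    refine k3.trans ?_
    rw [card_Edge]
  · rw [hout]
    show blockFn (fun X => f (ofSet X)) (w₀ * D) ((w₀ + M) * D) up (toSet G) ↔ _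
    unfold blockFn
    beta_reduce
    rw [ofSet_toSet]

/-- A number of blocks. -/
theorem count_blocks {T x E : ℕ} (hE : 1 ≤ E) (hx : x < T * E) (f : Prop) [Decidable f] :
    nc (fun i : Fin T × Bool => if i.2 then (i.1.1 * E ≤ x ∧ f) ∨ (i.1.1 + 1) * E ≤ x
      else x < i.1.1 * E ∨ (x < (i.1.1 + 1) * E ∧ f)) = T - 1 + if f then 2 else 0 := by
  classical
  set τ := x / E with hτ
  have e1 : τ * E ≤ x := Nat.div_mul_le_self _ _
  have e2 : x < (τ + 1) * E := by
    rw [add_mul, one_mul]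
    exact Nat.lt_div_mul_add (by omega)
  have hτT : τ < T := (Nat.div_lt_iff_lt_mul (by omega)).2 hx
  have key : ∀ i : Fin T × Bool, (if i.2 then (i.1.1 * E ≤ x ∧ f) ∨ (i.1.1 + 1) * E ≤ x
      else x < i.1.1 * E ∨ (x < (i.1.1 + 1) * E ∧ f)) ↔
      (if i.1.1 = τ then f else (if i.2 then i.1.1 < τ else τ < i.1.1)) := by
    rintro ⟨t, b⟩
    have l1 : t.1 < τ → (t.1 + 1) * E ≤ x := fun h =>
      (Nat.mul_le_mul_right _ (show t.1 + 1 ≤ τ from h)).trans e1
    have l2 : τ < t.1 → x < t.1 * E := fun h =>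
      e2.trans_le (Nat.mul_le_mul_right _ (show τ + 1 ≤ t.1 from h))
    have l3 : t.1 * E ≤ (t.1 + 1) * E := Nat.mul_le_mul_right _ (Nat.le_succ _)
    simp only
    rcases lt_trichotomy t.1 τ with h | h | h
    · have h' := l1 h
      rw [if_neg (by omega : ¬ t.1 = τ)]
      cases b
      · simp only [Bool.false_eq_true, if_false]
        constructor
        · rintro (h2 | ⟨h2, _⟩) <;> omega
        · intro h2
          omega
      · simp only [if_true]
        exact iff_of_true (Or.inr h') h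
    · rw [if_pos h, h]
      cases b
      · simp only [Bool.false_eq_true, if_false]
        constructor
        · rintro (h2 | ⟨_, h2⟩)
          · omega
          · exact h2
        · intro h2
          exact Or.inr ⟨e2, h2⟩
      · simp only [if_true]
        constructor
        · rintro (⟨_, h2⟩ | h2)
          · exact h2
          · omega
        · intro h2
          exact Or.inl ⟨e1, h2⟩
    · have h' := l2 h
      rw [if_neg (by omega : ¬ t.1 = τ)]
      cases b
      · simp only [Bool.false_eq_true, if_false]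
        exact iff_of_true (Or.inl h') h
      · simp only [if_true]
        constructor
        · rintro (⟨h2, _⟩ | h2) <;> omega
        · intro h2
          omega
  rw [nc_congr key, nc_eq, Finset.card_filter, Fintype.sum_prod_type]
  simp only [Fintype.sum_bool, if_true, Bool.false_eq_true, if_false]
  have h3 : ∀ t : Fin T, ((if (if t.1 = τ then f else t.1 < τ) then 1 else 0) +
      (if (if t.1 = τ then f else τ < t.1) then 1 else 0) : ℕ) =
      (if t = ⟨τ, hτT⟩ then (if f then 2 else 0) else 1) := by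
    intro t
    by_cases h : t.1 = τ
    · have h' : t = ⟨τ, hτT⟩ := Fin.ext h
      rw [if_pos h']
      by_cases hf : f <;> simp [h, hf]
    · have h' : ¬ t = ⟨τ, hτT⟩ := fun h2 => h (Fin.ext_iff.1 h2)
      rw [if_neg h']
      rcases lt_or_gt_of_ne h with h2 | h2
      · simp [h, h2, not_lt.2 h2.le]
      · simp [h, h2, not_lt.2 h2.le]
  rw [Finset.sum_congr rfl fun t _ => h3 t, Finset.sum_ite, Finset.filter_eq']
  rw [if_pos (Finset.mem_univ _), Finset.sum_singleton, Finset.sum_const, smul_eq_mul, mul_one,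
    Finset.filter_ne', Finset.card_erase_of_mem (Finset.mem_univ _), Finset.card_univ,
    Fintype.card_fin, add_comm]

/-- **Randomised circuits, exact form.** -/
theorem upper_exact {n S₀ : ℕ} (C₀ : Circuit n S₀)
    (h1 : ∀ i ∈ C₀.special, (C₀.ins i).card ≤ 1) (out₀ : Fin S₀)
    {f : SimpleGraph (Fin n) → Prop} (hf : ∀ G H, G ≤ H → f G → f H)
    (hC : (∀ G, C₀.fn out₀ G ↔ f G) ∨ (∀ G, C₀.fn out₀ G ↔ ¬ f G))
    {D r T : ℕ} (hD : 1 ≤ D) (hr : 1 ≤ r) (hT : n.choose 2 < T * (D * 2 ^ r)) :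
    ∃ (S : Fin T × Bool → ℕ) (C : ∀ i, Circuit n (S i)) (out : ∀ i, Fin (S i)),
      (∀ i, S i ≤ 2 ^ 7 * D * S₀ * (n.choose 2 + 1) ^ (D + 2) ∧ (C i).special.card ≤ r + 1 ∧
        ∀ j ∈ (C i).special, ((C i).ins j).card ≤ 1) ∧
      ∀ G, nc (fun i => (C i).fn (out i) G) = T - 1 + open Classical in if f G then 2 else 0 := by
  classical
  set N := n.choose 2 with hN
  set M := min (2 ^ r) (N + 1) with hM
  have hM1 : 1 ≤ M := by
    rw [hM]
    exact le_min Nat.one_le_two_pow (by omega)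
  have hMr : M ≤ 2 ^ r := min_le_left _ _
  have hMN : M ≤ N + 1 := min_le_right _ _
  have hS₀ : 0 < S₀ := lt_of_le_of_lt (Nat.zero_le _) out₀.2
  have hT0 : 1 ≤ T := by
    rcases Nat.eq_zero_or_pos T with h | h
    · rw [h, Nat.zero_mul] at hT
      omega
    · exact h
  have hcov : N < T * (D * M) := by
    rcases min_choice (2 ^ r) (N + 1) with h | h
    · rw [hM, h]
      exact hT
    · rw [hM, h]
      have h2 : 1 * (1 * (N + 1)) ≤ T * (D * (N + 1)) :=
        Nat.mul_le_mul hT0 (Nat.mul_le_mul_right _ hD)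
      omega
  set p := Nat.log 2 (M + 1) + 1 with hp
  have hp1 : M + 1 < 2 ^ p := Nat.lt_pow_succ_log_self (by norm_num) _
  have hp2 : 2 ^ p ≤ 2 * (M + 1) := by
    rw [hp, pow_succ]
    have := Nat.pow_log_le_self 2 (x := M + 1) (by omega)
    omega
  have hpr : p ≤ r + 1 := by
    have h2 : 2 ≤ 2 ^ r := by
      calc 2 = 2 ^ 1 := rfl
        _ ≤ 2 ^ r := Nat.pow_le_pow_right (by norm_num) hr
    have h3 : Nat.log 2 (M + 1) < r + 1 := Nat.log_lt_of_lt_pow (by omega) (by
      rw [pow_succ]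
      omega)
    omega
  choose S C out g1 g2 g3 g4 using fun i : Fin T × Bool =>
    circuit_block C₀ h1 out₀ hf hC hD (i.1.1 * M) hp1 hMN i.2
  refine ⟨S, C, out, fun i => ⟨?_, (g2 i).trans hpr, g3 i⟩, fun G => ?_⟩
  · refine (g1 i).trans ?_
    rw [← hN]
    set P := (N + 1) ^ (D + 2) with hP
    have hPN : N + 1 ≤ P := by
      calc N + 1 = (N + 1) ^ 1 := (pow_one _).symm
        _ ≤ (N + 1) ^ (D + 2) := Nat.pow_le_pow_right (Nat.succ_pos _) (by omega)
    have e1 : P * 1 ≤ P * (D * S₀) := Nat.mul_le_mul_left _ (Nat.mul_pos hD hS₀)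
    have e2 : D * (2 * S₀ + 1) * P ≤ D * (3 * S₀) * P :=
      Nat.mul_le_mul_right _ (Nat.mul_le_mul_left _ (by omega))
    have e3 : D * (3 * S₀) * P = 3 * (P * (D * S₀)) := by ring
    have e4 : 2 ^ 7 * D * S₀ * P = 128 * (P * (D * S₀)) := by ring
    rw [e4]
    omega
  · rw [← count_blocks (T := T) (x := (toSet G).card) (E := M * D) (Nat.mul_pos hM1 hD) ?_ (f G)]
    · refine nc_congr fun i => ?_
      rw [g4]
      have e1 : i.1.1 * M * D = i.1.1 * (M * D) := by ring
      have e2 : (i.1.1 * M + M) * D = (i.1.1 + 1) * (M * D) := by ring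
      rw [e1, e2]
    · have h2 : (toSet G).card ≤ N := by
        rw [hN, ← card_Edge]
        exact Finset.card_le_univ _
      have e3 : T * (M * D) = T * (D * M) := by ring
      rw [e3]
      omega

end Pool.Agent.H49.AG
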