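import Pool.Agent.H49.AG.Low

/-!
From the average case to randomised circuits.
-/

namespace Pool.Agent.H49.AG

open Finset
open Pool.Agent.H25.NM Pool.Agent.H25.NP

/-- Averaging over the inputs and over the circuits. -/
theorem yao {Z I : Type} [Fintype Z] [Fintype I] [Nonempty Z] (F G : I → Z → Prop)
    (bad : Z → Prop) {a b c q M : ℕ}
    (h1 : ∀ i, q * nc (fun z => ¬ (F i z ↔ G i z)) ≤ c * Fintype.card Z)
    (ha : ∀ z, a ≤ nc fun i => F i z) (hb : ∀ z, ¬ bad z → nc (fun i => G i z) ≤ b)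
    (hbad : M * nc bad ≤ Fintype.card Z) (hqM : q ≤ M) :
    q * (a - b) ≤ (c + 1) * Fintype.card I := by
  classical
  have hZ : 0 < Fintype.card Z := Fintype.card_pos
  have haI : a ≤ Fintype.card I := by
    obtain ⟨z⟩ := ‹Nonempty Z›
    exact (ha z).trans (nc_le_card _)
  -- one input
  have h2 : ∀ z, ¬ bad z → a - b ≤ nc fun i => ¬ (F i z ↔ G i z) := by
    intro z hz
    have h3 : nc (fun i => F i z) ≤ nc (fun i => ¬ (F i z ↔ G i z)) + nc fun i => G i z := by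
      refine le_trans (nc_mono fun i hi => ?_) (nc_or_le _ _)
      by_cases h : G i z
      · exact Or.inr h
      · exact Or.inl fun h' => h (h'.1 hi)
    have h4 := ha z
    have h5 := hb z hz
    omega
  -- all inputs
  have h3 : (a - b) * nc (fun z => ¬ bad z) ≤ ∑ i, nc fun z => ¬ (F i z ↔ G i z) := by
    have e1 := nc_prod fun (i : I) (z : Z) => ¬ (F i z ↔ G i z)
    have e2 := nc_prod fun (z : Z) (i : I) => ¬ (F i z ↔ G i z)
    have e3 := nc_equiv (Equiv.prodComm Z I) fun x : I × Z => ¬ (F x.1 x.2 ↔ G x.1 x.2)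
    have e4 : ∑ i, nc (fun z => ¬ (F i z ↔ G i z)) = ∑ z, nc fun i => ¬ (F i z ↔ G i z) := by
      rw [← e1, ← e2]
      exact e3.symm
    rw [e4, nc_eq, Finset.card_eq_sum_ones, Finset.sum_filter, Finset.mul_sum]
    refine Finset.sum_le_sum fun z _ => ?_
    by_cases hz : bad z
    · rw [if_neg (not_not.2 hz), mul_zero]
      exact Nat.zero_le _
    · rw [if_pos hz, mul_one]
      exact h2 z hz
  have h4 : q * ∑ i, nc (fun z => ¬ (F i z ↔ G i z)) ≤ c * Fintype.card Z * Fintype.card I := by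
    rw [Finset.mul_sum]
    calc ∑ i, q * nc (fun z => ¬ (F i z ↔ G i z)) ≤ ∑ _i : I, c * Fintype.card Z :=
          Finset.sum_le_sum fun i _ => h1 i
      _ = c * Fintype.card Z * Fintype.card I := by
          rw [Finset.sum_const, Finset.card_univ, smul_eq_mul, mul_comm]
  have h5 := nc_add_nc_not bad
  have h6 : q * (a - b) * nc bad ≤ Fintype.card Z * Fintype.card I := by
    calc q * (a - b) * nc bad ≤ M * Fintype.card I * nc bad :=
          Nat.mul_le_mul_right _ (Nat.mul_le_mul hqM ((Nat.sub_le _ _).trans haI))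
      _ = (M * nc bad) * Fintype.card I := by ring
      _ ≤ _ := Nat.mul_le_mul_right _ hbad
  refine Nat.le_of_mul_le_mul_right ?_ hZ
  calc q * (a - b) * Fintype.card Z = q * (a - b) * nc bad + q * ((a - b) * nc fun z => ¬ bad z) := by
        rw [← h5]
        ring
    _ ≤ Fintype.card Z * Fintype.card I + q * ∑ i, nc (fun z => ¬ (F i z ↔ G i z)) :=
        Nat.add_le_add h6 (Nat.mul_le_mul_left _ h3)
    _ ≤ Fintype.card Z * Fintype.card I + c * Fintype.card Z * Fintype.card I :=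
        Nat.add_le_add_left h4 _
    _ = _ := by ring

/-- The choice of the prime. -/
theorem exists_prime {n v d μ : ℕ} (hv : 512 ≤ v) (hd : 2 * d ≤ n)
    (hvn : 4 ^ μ * v ^ (μ + 1) ≤ n ^ μ) :
    ∃ q : ℕ, q.Prime ∧ v * q + d ≤ n ∧ v ≤ q ^ μ ∧ n < 4 * (v * q) := by
  have hμ : μ ≠ 0 := by
    rintro rfl
    simp at hvn
    omega
  have h4v : 4 * v ≤ n := by
    have h1 : (4 * v) ^ μ ≤ n ^ μ := by
      refine le_trans ?_ hvn
      rw [mul_pow, pow_succ]
      exact Nat.mul_le_mul_left _ (Nat.le_mul_of_pos_right _ (by omega))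
    exact (Nat.pow_le_pow_iff_left hμ).1 h1
  set n₀ := n - d with hn₀
  set N := n₀ / v with hN
  have hvN : v * N ≤ n₀ := Nat.mul_div_le _ _
  have hvN2 : n₀ < v * (N + 1) := Nat.lt_mul_div_succ _ (by omega)
  have hNpos : N / 2 ≠ 0 := by
    intro h0
    have h1 : N ≤ 1 := by omega
    have h2 : v * (N + 1) ≤ v * 2 := Nat.mul_le_mul_left _ (by omega)
    omega
  obtain ⟨q, hq, hq1, hq2⟩ := Nat.exists_prime_lt_and_le_two_mul (N / 2) hNpos
  have hqN : q ≤ N := by omega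
  have hvq : v * q ≤ n₀ := (Nat.mul_le_mul_left _ hqN).trans hvN
  have hqv : n < 4 * (v * q) := by
    have h1 : v * (N + 1) ≤ v * (2 * q) := Nat.mul_le_mul_left _ (by omega)
    have h2 : v * (2 * q) = 2 * (v * q) := by ring
    omega
  refine ⟨q, hq, by omega, ?_, hqv⟩
  by_contra hcon
  rw [not_le] at hcon
  have h1 : (4 * (v * q)) ^ μ < n ^ μ := by
    calc (4 * (v * q)) ^ μ = 4 ^ μ * v ^ μ * q ^ μ := by ring
      _ < 4 ^ μ * v ^ μ * v := Nat.mul_lt_mul_of_pos_left hcon (by positivity)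
      _ = 4 ^ μ * v ^ (μ + 1) := by ring
      _ ≤ n ^ μ := hvn
  exact absurd (Nat.pow_lt_pow_left hqv hμ) (not_lt.2 h1.le)

/-- **Randomised circuits with few special gates.** -/
theorem worst {n L l μ K d s h S r t N a b : ℕ} (hK : 1 ≤ K) (hL : 1 ≤ L) (hLl : L ≤ l)
    (hnL : n ≤ 2 ^ L) (hd : 2 * d ≤ n)
    (hvn : 4 ^ μ * (K * (512 * l ^ 2 * L)) ^ (μ + 1) ≤ n ^ μ)
    (hs : 2 * (4 * l ^ 2) ^ μ * (L + 1) < s) (hS : 2 ^ h * (S + 1) ≤ 2 ^ l)
    (B : Fin h → Bool) (C : Fin N → (Fin h → Bool) → Circuit n S)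
    (out : Fin N → (Fin h → Bool) → Fin S) (ht0 : 1 ≤ t)
    (hr : ∀ i y, (C i y).special.card ≤ r)
    (ht : ∀ i y, ∀ j ∈ (C i y).special, ((C i y).ins j).card ≤ t)
    (ha : ∀ G : SimpleGraph (Fin n), ¬ G.CliqueFree (K + d) →
      a ≤ nc fun i => Quantified h B fun y => (C i y).fn (out i y) G)
    (hb : ∀ G : SimpleGraph (Fin n), G.CliqueFree (s + d) →
      nc (fun i => Quantified h B fun y => (C i y).fn (out i y) G) ≤ b) :
    n ^ 2 * (a - b) ≤ 80 * (K * (512 * l ^ 2 * L)) ^ 2 * (t * 2 ^ (h + r)) * N := by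
  classical
  have hl : 1 ≤ l := hL.trans hLl
  have hl1 : 1 ≤ l ^ 2 := Nat.one_le_pow _ _ hl
  have hlL : 1 ≤ l ^ 2 * L := Nat.one_le_iff_ne_zero.2 (Nat.mul_ne_zero (by omega) (by omega))
  have hw1 : 512 ≤ 512 * l ^ 2 * L := by
    rw [mul_assoc]
    omega
  set w := 512 * l ^ 2 * L with hw
  have hv : 512 ≤ K * w := by
    calc 512 = 1 * 512 := rfl
      _ ≤ K * w := Nat.mul_le_mul hK hw1
  obtain ⟨q, hq, hq1, hq2, hq3⟩ := exists_prime hv hd hvn
  have hμ : 1 ≤ μ := by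
    rcases Nat.eq_zero_or_pos μ with h0 | h0
    · rw [h0, pow_zero] at hq2
      omega
    · exact h0
  set Q := 4 * l ^ 2 with hQ
  have hQ1 : 1 ≤ Q := by omega
  have : NeZero Q := ⟨by omega⟩
  have : Nonempty (Fin w) := ⟨⟨0, by omega⟩⟩
  have : Nonempty (Fin (q ^ 2)) := ⟨⟨0, Nat.pow_pos hq.pos⟩⟩
  have hqn : q ≤ 2 ^ L := by
    have h1 : 1 * q ≤ K * w * q := Nat.mul_le_mul_right _ (by omega)
    omega
  have hqs : q ^ 2 ≤ 2 ^ s := by
    calc q ^ 2 ≤ (2 ^ L) ^ 2 := Nat.pow_le_pow_left hqn 2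
      _ = 2 ^ (L * 2) := by rw [← pow_mul]
      _ ≤ 2 ^ s := by
          refine Nat.pow_le_pow_right (by norm_num) ?_
          have h1 : 1 ≤ Q ^ μ := Nat.one_le_pow _ _ hQ1
          have h2 : 2 * 1 * (L + 1) ≤ 2 * Q ^ μ * (L + 1) :=
            Nat.mul_le_mul_right _ (Nat.mul_le_mul_left _ h1)
          omega
  have hy := yao (Z := Seed q K w Q) (I := Fin N)
    (fun i z => Quantified h B fun y => (C i y).fn (out i y) (cone d (pos n q μ K w Q z)))
    (fun i z => Quantified h B fun y => (C i y).fn (out i y) (cone d (neg n q μ K w Q z)))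
    (fun z => ¬ (cone d (neg n q μ K w Q z)).CliqueFree (s + d))
    (q := q ^ 2) (M := 2 ^ s) (c := 4 * (t * 2 ^ (h + r))) (a := a) (b := b) ?_ ?_ ?_ ?_ hqs
  · rw [Fintype.card_fin] at hy
    have h1 : n ^ 2 ≤ 16 * (K * w) ^ 2 * q ^ 2 := by
      calc n ^ 2 ≤ (4 * (K * w * q)) ^ 2 := Nat.pow_le_pow_left hq3.le 2
        _ = _ := by ring
    have h2 : 1 ≤ t * 2 ^ (h + r) := Nat.mul_pos ht0 (by positivity)
    calc n ^ 2 * (a - b) ≤ 16 * (K * w) ^ 2 * q ^ 2 * (a - b) := Nat.mul_le_mul_right _ h1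
      _ = 16 * (K * w) ^ 2 * (q ^ 2 * (a - b)) := by ring
      _ ≤ 16 * (K * w) ^ 2 * ((4 * (t * 2 ^ (h + r)) + 1) * N) := Nat.mul_le_mul_left _ hy
      _ ≤ 16 * (K * w) ^ 2 * ((5 * (t * 2 ^ (h + r))) * N) :=
          Nat.mul_le_mul_left _ (Nat.mul_le_mul_right _ (by omega))
      _ = _ := by ring
  · intro i
    exact core_quant hq hK hL hLl hnL hw hQ hq1 hS B (C i) (out i) ht0 (hr i) (ht i)
  · intro z
    exact ha _ (pos_clique hq.pos hq1 z)
  · intro z hz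
    exact hb _ (not_not.1 hz)
  · exact neg_clique hq hQ1 hnL hq2 hq1 hs

end Pool.Agent.H49.AG
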